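import Pool.Agent.TH603.EL.Defs
import Pool.Agent.TH603.EL.Low

/-! Theta functions of degree two: definitions. -/

namespace Pool.Agent.TH603.ED

open Pool.Agent.TH603.EL

/-- the exponent `i ^ 2 / (k + 1) + i τ` -/
noncomputable def exk (k : ℕ) (τ : ℝ) (i : ℤ) : ℝ := (i : ℝ) ^ 2 / (k + 1) + i * τ

theorem exk_bound (k : ℕ) (τ a : ℝ) (i : ℤ) (h : exk k τ i ≤ a) :
    |(i : ℝ)| ≤ (k + 1) * (|a| + |τ|) + 1 := by
  by_contra hc
  push Not at hc
  unfold exk at h
  have hk : (0 : ℝ) < k + 1 := by positivity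
  have h3 : (0 : ℝ) ≤ |a| := abs_nonneg a
  have h4 : (0 : ℝ) ≤ |τ| := abs_nonneg τ
  have h5 : a ≤ |a| := le_abs_self a
  have h6 : -(|(i : ℝ)| * |τ|) ≤ i * τ := by rw [← abs_mul]; exact neg_abs_le _
  have h8 : (1 : ℝ) < |(i : ℝ)| := by nlinarith
  have h9 : (i : ℝ) ^ 2 / (k + 1) ≤ |a| + |(i : ℝ)| * |τ| := by linarith
  rw [div_le_iff₀ hk] at h9
  have h2 : (i : ℝ) ^ 2 = |(i : ℝ)| ^ 2 := (sq_abs _).symm
  rw [h2] at h9
  have h10 : (|a| + |(i : ℝ)| * |τ|) * (k + 1) ≤ |(i : ℝ)| * ((k + 1) * (|a| + |τ|)) := by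
    have : |a| ≤ |(i : ℝ)| * |a| := by nlinarith
    nlinarith
  nlinarith

theorem isPWO_of_exk (k : ℕ) (τ : ℝ) (s : Set ℝ) (hs : s ⊆ Set.range (exk k τ)) : s.IsPWO := by
  apply Set.IsWF.isPWO
  rw [Set.isWF_iff_no_descending_seq]
  intro f hf hmem
  choose g hg using fun n => hs (hmem n)
  have hinj : Function.Injective g := by
    intro m n h
    apply hf.injective
    rw [← hg m, ← hg n, h]
  have hfin : (Set.range g).Finite := by
    apply Set.Finite.subset (Set.finite_Icc (-⌈((k : ℝ) + 1) * (|f 0| + |τ|) + 1⌉)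
      ⌈((k : ℝ) + 1) * (|f 0| + |τ|) + 1⌉)
    rintro _ ⟨n, rfl⟩
    have h1 : exk k τ (g n) ≤ f 0 := by rw [hg n]; exact hf.antitone (Nat.zero_le n)
    have h2 := abs_le.1 (exk_bound k τ (f 0) (g n) h1)
    have := Int.le_ceil (((k : ℝ) + 1) * (|f 0| + |τ|) + 1)
    constructor
    · have : (-⌈((k : ℝ) + 1) * (|f 0| + |τ|) + 1⌉ : ℝ) ≤ g n := by linarith
      exact_mod_cast this
    · have : (g n : ℝ) ≤ ⌈((k : ℝ) + 1) * (|f 0| + |τ|) + 1⌉ := by linarith
      exact_mod_cast this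
  exact Set.infinite_range_of_injective hinj hfin

/-- the series `∑ c i t ^ (i ^ 2 / (k + 1) + i τ) z ^ i` -/
noncomputable def ser {F : Type} [Field F] (k : ℕ) (c : ℤ → F) (τ : ℝ) : HR F where
  coeff a := .ofCoeff (Finsupp.onFinset
    ((Finset.Icc (-⌈((k : ℝ) + 1) * (|a| + |τ|) + 1⌉) ⌈((k : ℝ) + 1) * (|a| + |τ|) + 1⌉) ×ˢ {0})
    (fun m => by
      classical
      exact if m.2 = 0 ∧ exk k τ m.1 = a then c m.1 else 0) (by
      intro m hm
      have hm' : m.2 = 0 ∧ exk k τ m.1 = a := by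
        by_contra hc
        exact hm (if_neg hc)
      obtain ⟨h1, h3⟩ := hm'
      rw [Finset.mem_product]
      refine ⟨?_, by simpa using h1⟩
      have h4 := abs_le.1 (exk_bound k τ a m.1 h3.le)
      have := Int.le_ceil (((k : ℝ) + 1) * (|a| + |τ|) + 1)
      rw [Finset.mem_Icc]
      constructor
      · have : (-⌈((k : ℝ) + 1) * (|a| + |τ|) + 1⌉ : ℝ) ≤ m.1 := by linarith
        exact_mod_cast this
      · have : (m.1 : ℝ) ≤ ⌈((k : ℝ) + 1) * (|a| + |τ|) + 1⌉ := by linarith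
        exact_mod_cast this))
  isPWO_support' := by
    apply isPWO_of_exk k τ
    intro a ha
    by_contra hc
    apply ha
    ext m
    simp only [Finsupp.onFinset_apply, AddMonoidAlgebra.coeff_zero,
      Finsupp.coe_zero, Pi.zero_apply]
    rw [if_neg]
    rintro ⟨_, h⟩
    exact hc ⟨m.1, h⟩

open Classical in
theorem cf_ser {F : Type} [Field F] (k : ℕ) (c : ℤ → F) (τ a : ℝ) (i j : ℤ) :
    cf (ser k c τ) a i j = if j = 0 ∧ exk k τ i = a then c i else 0 := by
  simp only [cf, ser, Finsupp.onFinset_apply]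

/-- the even theta function of degree two -/
noncomputable def x0 (F : Type) [Field F] (τ : ℝ) : HR F := ser 1 (fun i => if i % 2 = 0 then 1 else 0) τ
/-- the other even theta function of degree two -/
noncomputable def x1 (F : Type) [Field F] (τ : ℝ) : HR F := ser 1 (fun i => if i % 2 = 1 then 1 else 0) τ
/-- the odd theta function of degree four -/
noncomputable def ww (F : Type) [Field F] (τ : ℝ) : HR F :=
  ser 3 (fun i => if i % 4 = 1 then 1 else if i % 4 = 3 then -1 else 0) τ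

variable {F : Type} [Field F]

/-- a form of degree `m` in `x0`, `x1` -/
noncomputable def fm (m : ℕ) (a : ℕ → HK F) (τ : ℝ) : HR F :=
  ∑ k ∈ Finset.range (m + 1), incl (a k) * (x0 F τ ^ (m - k) * x1 F τ ^ k)

/-- the functions `a + b w` of degree `m` -/
noncomputable def gm (m : ℕ) (a b : ℕ → HK F) (τ : ℝ) : HR F :=
  fm m a τ + fm (m - 2) b τ * ww F τ

/-- the coordinates of the tube -/
noncomputable def tub (F : Type) [Field F] (τ s : ℝ) : ZMod 3 → HR F := fun l =>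
  if l = 0 then x0 F τ ^ 2 else if l = 1 then x0 F τ * x1 F τ else ww F τ + tz F s 0 1

end Pool.Agent.TH603.ED
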