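import Pool.Agent.TH603.ED.Defs
import Pool.Agent.TH603.EL.Scal1
import Pool.Agent.TH603.EL.Scal2

/-! Shifts and scaling of the theta functions of degree two (helper73, job 4008). -/

set_option autoImplicit false

namespace Pool.Agent.TH603.ED

open Pool.Agent.TH603.EL

variable {F : Type} [Field F]

theorem x0_succ (τ : ℝ) : x0 F (τ + 1) = tz F (-τ - 1 / 2) (-1) 0 * x1 F τ := by
  classical
  apply cf_ext
  intro a i j
  unfold x0 x1
  rw [cf_tz_mul, cf_ser, cf_ser]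
  have e1 : exk 1 τ (i - -1) = exk 1 (τ + 1) i + τ + 1 / 2 := by
    unfold exk
    push_cast
    ring
  have h1 : (j = 0 ∧ exk 1 (τ + 1) i = a) ↔
      (j - 0 = 0 ∧ exk 1 τ (i - -1) = a - (-τ - 1 / 2)) := by
    rw [e1, sub_zero]
    refine and_congr_right fun _ => ?_
    constructor
    · intro h; linarith
    · intro h; linarith
  have h2 : (i % 2 = 0) ↔ ((i - -1) % 2 = 1) := by omega
  simp only [h1, h2]

theorem x1_succ (τ : ℝ) : x1 F (τ + 1) = tz F (-τ - 1 / 2) (-1) 0 * x0 F τ := by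
  classical
  apply cf_ext
  intro a i j
  unfold x0 x1
  rw [cf_tz_mul, cf_ser, cf_ser]
  have e1 : exk 1 τ (i - -1) = exk 1 (τ + 1) i + τ + 1 / 2 := by
    unfold exk
    push_cast
    ring
  have h1 : (j = 0 ∧ exk 1 (τ + 1) i = a) ↔
      (j - 0 = 0 ∧ exk 1 τ (i - -1) = a - (-τ - 1 / 2)) := by
    rw [e1, sub_zero]
    refine and_congr_right fun _ => ?_
    constructor
    · intro h; linarith
    · intro h; linarith
  have h2 : (i % 2 = 1) ↔ ((i - -1) % 2 = 0) := by omega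
  simp only [h1, h2]

theorem ww_succ (τ : ℝ) : ww F (τ + 1) = -(tz F (-2 * τ - 1) (-2) 0 * ww F τ) := by
  classical
  apply cf_ext
  intro a i j
  have hneg : ∀ y : HR F, cf (-y) a i j = -cf y a i j := by
    intro y
    simp [cf]
  rw [hneg]
  unfold ww
  rw [cf_tz_mul, cf_ser, cf_ser]
  have e1 : exk 3 τ (i - -2) = exk 3 (τ + 1) i + 2 * τ + 1 := by
    unfold exk
    push_cast
    ring
  have h1 : (j = 0 ∧ exk 3 (τ + 1) i = a) ↔
      (j - 0 = 0 ∧ exk 3 τ (i - -2) = a - (-2 * τ - 1)) := by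
    rw [e1, sub_zero]
    refine and_congr_right fun _ => ?_
    constructor
    · intro h; linarith
    · intro h; linarith
  by_cases h : j = 0 ∧ exk 3 (τ + 1) i = a
  · rw [if_pos h, if_pos (h1.1 h)]
    by_cases h3 : i % 4 = 1
    · rw [if_pos h3, if_neg (by omega : ¬ (i - -2) % 4 = 1), if_pos (by omega : (i - -2) % 4 = 3),
        neg_neg]
    · rw [if_neg h3]
      by_cases h4 : i % 4 = 3
      · rw [if_pos h4, if_pos (by omega : (i - -2) % 4 = 1)]
      · rw [if_neg h4, if_neg (by omega : ¬ (i - -2) % 4 = 1),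
          if_neg (by omega : ¬ (i - -2) % 4 = 3), neg_zero]
  · rw [if_neg h, if_neg (fun h' => h (h1.2 h')), neg_zero]

namespace Q1

theorem x0_two (τ : ℝ) : x0 F (τ + 2) = tz F (-(2 * τ + 2)) (-2) 0 * x0 F τ := by
  rw [show τ + 2 = (τ + 1) + 1 by ring, x0_succ, x1_succ, ← mul_assoc, Scal1.tz_mul_tz]
  congr 2
  ring

theorem x1_two (τ : ℝ) : x1 F (τ + 2) = tz F (-(2 * τ + 2)) (-2) 0 * x1 F τ := by
  rw [show τ + 2 = (τ + 1) + 1 by ring, x1_succ, x0_succ, ← mul_assoc, Scal1.tz_mul_tz]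
  congr 2
  ring

theorem ww_two (τ : ℝ) : ww F (τ + 2) = tz F (-(2 * τ + 2)) (-2) 0 ^ 2 * ww F τ := by
  have e : ∀ x y z : HR F, -(x * -(y * z)) = (x * y) * z := by
    intro x y z
    ring
  rw [show τ + 2 = (τ + 1) + 1 by ring, ww_succ, ww_succ, e, Scal1.tz_mul_tz, Scal1.tz_pow]
  congr 2
  push_cast
  ring

theorem fm_two (m : ℕ) (a : ℕ → HK F) (τ : ℝ) :
    fm m a (τ + 2) = tz F (-(2 * τ + 2)) (-2) 0 ^ m * fm m a τ := by
  unfold fm
  rw [Finset.mul_sum]
  refine Finset.sum_congr rfl fun k hk => ?_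
  have hk' : k ≤ m := by
    have := Finset.mem_range.1 hk
    omega
  rw [x0_two, x1_two, mul_pow, mul_pow]
  have h : tz F (-(2 * τ + 2)) (-2) 0 ^ m =
      tz F (-(2 * τ + 2)) (-2) 0 ^ (m - k) * tz F (-(2 * τ + 2)) (-2) 0 ^ k := by
    rw [← pow_add, Nat.sub_add_cancel hk']
  rw [h]
  ring

theorem sc_ser (k : ℕ) (c : ℤ → F) (τ s : ℝ) : Scal2.Sc s (ser k c τ) (ser k c (τ + s)) := by
  classical
  intro a i j
  rw [cf_ser, cf_ser]
  refine if_congr ?_ rfl rfl
  unfold exk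
  refine and_congr_right fun _ => ?_
  constructor
  · intro h; linarith
  · intro h; linarith

theorem sc_one (s : ℝ) : Scal2.Sc s (1 : HR F) 1 := by
  have := Scal2.Sc.incl (F := F) s 1
  rwa [map_one] at this

theorem sc_zero (s : ℝ) : Scal2.Sc s (0 : HR F) 0 := by
  have := Scal2.Sc.incl (F := F) s 0
  rwa [map_zero] at this

theorem sc_pow {s : ℝ} {x y : HR F} (h : Scal2.Sc s x y) (n : ℕ) :
    Scal2.Sc s (x ^ n) (y ^ n) := by
  induction n with
  | zero =>
    rw [pow_zero, pow_zero]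
    exact sc_one s
  | succ n ih =>
    rw [pow_succ, pow_succ]
    exact ih.mul h

theorem sc_sum {s : ℝ} (t : Finset ℕ) (f g : ℕ → HR F) (h : ∀ k ∈ t, Scal2.Sc s (f k) (g k)) :
    Scal2.Sc s (∑ k ∈ t, f k) (∑ k ∈ t, g k) := by
  classical
  induction t using Finset.induction_on with
  | empty =>
    rw [Finset.sum_empty, Finset.sum_empty]
    exact sc_zero s
  | insert k t hk ih =>
    rw [Finset.sum_insert hk, Finset.sum_insert hk]
    exact (h k (Finset.mem_insert_self _ _)).add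
      (ih fun l hl => h l (Finset.mem_insert_of_mem hl))

theorem sc_fm (m : ℕ) (a : ℕ → HK F) (τ s : ℝ) :
    Scal2.Sc s (fm m a τ) (fm m a (τ + s)) := by
  unfold fm
  refine sc_sum _ _ _ fun k _ => ?_
  exact (Scal2.Sc.incl s (a k)).mul
    ((sc_pow (sc_ser _ _ τ s) _).mul (sc_pow (sc_ser _ _ τ s) _))

end Q1

theorem gm_add_two (m : ℕ) (a b : ℕ → HK F) (hb : m < 2 → ∀ k, b k = 0) (τ : ℝ) :
    gm m a b (τ + 2) = tz F (-(m * (2 * τ + 2))) (-(2 * m)) 0 * gm m a b τ := by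
  have hu : tz F (-(m * (2 * τ + 2))) (-(2 * m)) 0 = tz F (-(2 * τ + 2)) (-2) 0 ^ m := by
    rw [Scal1.tz_pow]
    congr 1
    · ring
    · ring
  rw [hu]
  unfold gm
  rw [Q1.fm_two, Q1.fm_two, Q1.ww_two, mul_add]
  congr 1
  by_cases hm : m < 2
  · have h0 : fm (m - 2) b τ = 0 := by
      unfold fm
      apply Finset.sum_eq_zero
      intro k _
      rw [hb hm k, map_zero, zero_mul]
    rw [h0]
    ring
  · have h : tz F (-(2 * τ + 2)) (-2) 0 ^ m =
        tz F (-(2 * τ + 2)) (-2) 0 ^ (m - 2) * tz F (-(2 * τ + 2)) (-2) 0 ^ 2 := by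
      rw [← pow_add, Nat.sub_add_cancel (by omega)]
    rw [h]
    ring

theorem gm_scal (m : ℕ) (a b : ℕ → HK F) (τ s c : ℝ) (i j : ℤ) :
    cf (gm m a b (τ + s)) (c + s * i) i j = cf (gm m a b τ) c i j := by
  have h : Scal2.Sc s (gm m a b τ) (gm m a b (τ + s)) := by
    unfold gm
    exact (Q1.sc_fm m a τ s).add ((Q1.sc_fm (m - 2) b τ s).mul (Q1.sc_ser _ _ τ s))
  exact h c i j

end Pool.Agent.TH603.ED
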