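import Pool.Agent.TH603.ED.Defs
import Pool.Agent.TH603.EL.Scal3

/-! The exponent bound for the leading coefficient of `a + b w` (helper147, job 4009). -/

set_option autoImplicit false

namespace Pool.Agent.TH603.ED

open Pool.Agent.TH603.EL

namespace Q2

variable {F : Type} [Field F]

theorem Sc.pow {s : ℝ} {x y : HR F} (h : Scal2.Sc s x y) (n : ℕ) :
    Scal2.Sc s (x ^ n) (y ^ n) := by
  induction n with
  | zero =>
    have := Scal2.Sc.incl (F := F) s 1
    rw [map_one] at this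
    simpa using this
  | succ n ih =>
    rw [pow_succ, pow_succ]
    exact ih.mul h

theorem Sc.sum {s : ℝ} {κ : Type} (t : Finset κ) (x y : κ → HR F)
    (h : ∀ k ∈ t, Scal2.Sc s (x k) (y k)) : Scal2.Sc s (∑ k ∈ t, x k) (∑ k ∈ t, y k) := by
  classical
  induction t using Finset.induction_on with
  | empty =>
    have := Scal2.Sc.incl (F := F) s 0
    rw [map_zero] at this
    simpa using this
  | insert k t hk ih =>
    rw [Finset.sum_insert hk, Finset.sum_insert hk]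
    exact (h k (Finset.mem_insert_self _ _)).add
      (ih fun j hj => h j (Finset.mem_insert_of_mem hj))

theorem Sc.ser (k : ℕ) (c : ℤ → F) (τ s : ℝ) : Scal2.Sc s (ser k c τ) (ser k c (τ + s)) := by
  classical
  intro a i j
  rw [cf_ser, cf_ser]
  refine if_congr ?_ rfl rfl
  unfold exk
  refine and_congr_right fun _ => ?_
  constructor
  · intro h; linarith
  · intro h; linarith

theorem Sc.fm (m : ℕ) (a : ℕ → HK F) (τ s : ℝ) : Scal2.Sc s (fm m a τ) (fm m a (τ + s)) := by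
  unfold ED.fm
  apply Sc.sum
  intro k _
  exact (Scal2.Sc.incl s (a k)).mul
    ((Sc.pow (Sc.ser _ _ _ _) _).mul (Sc.pow (Sc.ser _ _ _ _) _))

theorem gm_scal (m : ℕ) (a b : ℕ → HK F) (τ s c : ℝ) (i j : ℤ) :
    cf (gm m a b (τ + s)) (c + s * i) i j = cf (gm m a b τ) c i j := by
  have h : Scal2.Sc s (gm m a b τ) (gm m a b (τ + s)) := by
    unfold gm
    exact (Sc.fm m a τ s).add ((Sc.fm (m - 2) b τ s).mul (Sc.ser _ _ _ _))
  exact h c i j

theorem x0_add_two (τ : ℝ) : x0 F (τ + 2) = tz F (-(2 * τ + 2)) (-2) 0 * x0 F τ := by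
  classical
  apply cf_ext
  intro a i j
  unfold x0
  rw [cf_tz_mul, cf_ser, cf_ser]
  have e1 : (i - -2) % 2 = i % 2 := by omega
  have e2 : exk 1 τ (i - -2) = exk 1 (τ + 2) i + (2 * τ + 2) := by
    unfold exk
    push_cast
    ring
  have h1 : (j = 0 ∧ exk 1 (τ + 2) i = a) ↔
      (j - 0 = 0 ∧ exk 1 τ (i - -2) = a - -(2 * τ + 2)) := by
    rw [e2, sub_zero, sub_neg_eq_add, add_left_inj]
  simp only [h1, e1]

theorem x1_add_two (τ : ℝ) : x1 F (τ + 2) = tz F (-(2 * τ + 2)) (-2) 0 * x1 F τ := by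
  classical
  apply cf_ext
  intro a i j
  unfold x1
  rw [cf_tz_mul, cf_ser, cf_ser]
  have e1 : (i - -2) % 2 = i % 2 := by omega
  have e2 : exk 1 τ (i - -2) = exk 1 (τ + 2) i + (2 * τ + 2) := by
    unfold exk
    push_cast
    ring
  have h1 : (j = 0 ∧ exk 1 (τ + 2) i = a) ↔
      (j - 0 = 0 ∧ exk 1 τ (i - -2) = a - -(2 * τ + 2)) := by
    rw [e2, sub_zero, sub_neg_eq_add, add_left_inj]
  simp only [h1, e1]

theorem ww_add_two (τ : ℝ) : ww F (τ + 2) = tz F (-(4 * τ + 4)) (-4) 0 * ww F τ := by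
  classical
  apply cf_ext
  intro a i j
  unfold ww
  rw [cf_tz_mul, cf_ser, cf_ser]
  have e1 : (i - -4) % 4 = i % 4 := by omega
  have e2 : exk 3 τ (i - -4) = exk 3 (τ + 2) i + (4 * τ + 4) := by
    unfold exk
    push_cast
    ring
  have h1 : (j = 0 ∧ exk 3 (τ + 2) i = a) ↔
      (j - 0 = 0 ∧ exk 3 τ (i - -4) = a - -(4 * τ + 4)) := by
    rw [e2, sub_zero, sub_neg_eq_add, add_left_inj]
  simp only [h1, e1]

theorem fm_add_two (m : ℕ) (a : ℕ → HK F) (τ : ℝ) :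
    fm m a (τ + 2) = tz F (m * (-(2 * τ + 2))) (m * (-2)) (m * 0) * fm m a τ := by
  unfold fm
  rw [Finset.mul_sum]
  refine Finset.sum_congr rfl fun k hk => ?_
  rw [x0_add_two, x1_add_two, mul_pow, mul_pow, ← Scal1.tz_pow]
  have : tz F (-(2 * τ + 2)) (-2) 0 ^ m = tz F (-(2 * τ + 2)) (-2) 0 ^ (m - k) *
      tz F (-(2 * τ + 2)) (-2) 0 ^ k := by
    rw [← pow_add, Nat.sub_add_cancel (Nat.lt_succ_iff.1 (Finset.mem_range.1 hk))]
  rw [this]
  ring

theorem fm_zero (m : ℕ) (b : ℕ → HK F) (hb : ∀ k, b k = 0) (τ : ℝ) : fm m b τ = 0 := by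
  unfold fm
  apply Finset.sum_eq_zero
  intro k _
  rw [hb k, map_zero, zero_mul]

theorem gm_add_two (m : ℕ) (a b : ℕ → HK F) (hb : m < 2 → ∀ k, b k = 0) (τ : ℝ) :
    gm m a b (τ + 2) = tz F (-(m * (2 * τ + 2))) (-(2 * m)) 0 * gm m a b τ := by
  unfold gm
  rw [mul_add]
  congr 1
  · rw [fm_add_two]
    congr 2
    · ring
    · ring
  · rcases lt_or_ge m 2 with hm | hm
    · rw [fm_zero _ _ (hb hm), fm_zero _ _ (hb hm)]
      simp
    · rw [fm_add_two, ww_add_two]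
      rw [mul_mul_mul_comm, Scal1.tz_mul_tz]
      obtain ⟨k, rfl⟩ : ∃ k, m = k + 2 := ⟨m - 2, by omega⟩
      have e : k + 2 - 2 = k := by omega
      rw [e]
      congr 2
      · push_cast
        ring
      · push_cast
        ring

theorem prR_incl (c : HK F) : Scal3.prR F (incl c) = incl c := by
  apply Scal3.prR_self
  intro a i j hj
  rw [cf_incl, if_neg (fun h => hj h.2)]

theorem prR_ser (k : ℕ) (c : ℤ → F) (τ : ℝ) : Scal3.prR F (ser k c τ) = ser k c τ := by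
  apply Scal3.prR_self
  intro a i j hj
  rw [cf_ser, if_neg (fun h => hj h.1)]

theorem prR_fm (m : ℕ) (a : ℕ → HK F) (τ : ℝ) : Scal3.prR F (fm m a τ) = fm m a τ := by
  unfold fm x0 x1
  rw [map_sum]
  refine Finset.sum_congr rfl fun k _ => ?_
  rw [map_mul, map_mul, map_pow, map_pow, prR_incl, prR_ser, prR_ser]

theorem prR_gm (m : ℕ) (a b : ℕ → HK F) (τ : ℝ) : Scal3.prR F (gm m a b τ) = gm m a b τ := by
  unfold gm
  rw [map_add, map_mul, prR_fm, prR_fm]
  congr 2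
  exact prR_ser _ _ _

theorem no_Y {m : ℕ} {a b : ℕ → HK F} {τ c : ℝ} {i j : ℤ} (h : cf (gm m a b τ) c i j ≠ 0) :
    j = 0 := by
  by_contra hj
  apply h
  rw [← prR_gm]
  exact Scal3.cf_prR hj

end Q2

open Q2 in
theorem gm_bound {F : Type} [Field F] {m : ℕ} {a b : ℕ → HK F} (hb : m < 2 → ∀ k, b k = 0)
    {τ c : ℝ}
    (hlow : Low (gm m a b τ) c) {i j : ℤ} (h : cf (gm m a b τ) c i j ≠ 0) :
    -((m : ℝ) * (1 + τ)) ≤ i ∧ (i : ℝ) ≤ m * (1 - τ) ∧ j = 0 := by
  refine ⟨?_, ?_, no_Y h⟩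
  · have h1 : cf (gm m a b (τ + 2)) (c + 2 * i) i j ≠ 0 := by
      rw [Q2.gm_scal]; exact h
    rw [Q2.gm_add_two m a b hb, cf_tz_mul] at h1
    have h2 := Scal3.not_low hlow h1
    nlinarith
  · have h1 : cf (gm m a b (τ - 2)) (c - 2 * i) i j ≠ 0 := by
      have e := Q2.gm_scal m a b τ (-2) c i j
      have e1 : τ + -2 = τ - 2 := by ring
      have e2 : c + -2 * (i : ℝ) = c - 2 * i := by ring
      rw [e1, e2] at e
      rw [e]; exact h
    have e3 := Q2.gm_add_two m a b hb (τ - 2)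
    have e4 : τ - 2 + 2 = τ := by ring
    rw [e4] at e3
    have h3 : cf (gm m a b τ) (c - 2 * i + -(m * (2 * (τ - 2) + 2))) (i + -(2 * m)) j ≠ 0 := by
      rw [e3, cf_tz_mul]
      have e5 : c - 2 * (i : ℝ) + -(m * (2 * (τ - 2) + 2)) - -(m * (2 * (τ - 2) + 2)) =
        c - 2 * i := by ring
      have e6 : i + -(2 * (m : ℤ)) - -(2 * (m : ℤ)) = i := by ring
      have e7 : j - 0 = j := by ring
      rw [e5, e6, e7]
      exact h1
    have h2 := Scal3.not_low hlow h3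
    nlinarith

end Pool.Agent.TH603.ED
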