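import Pool.Agent.TH603.ED.Defs
import Pool.Agent.TH603.EL.Scal2
import Pool.Agent.TH603.EL.Hesse

/-! The quartic relation between the theta functions of degree two (helper757, job 4010). -/

set_option autoImplicit false

namespace Pool.Agent.TH603.ED

open Pool.Agent.TH603.EL
open Pool.Agent.TH603.EL.Scal2 (Sc)

variable {F : Type} [Field F]

namespace Q3aux

theorem cf_add (x y : HR F) (a : ℝ) (i j : ℤ) : cf (x + y) a i j = cf x a i j + cf y a i j := rfl

/-! ### the shift by one -/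

theorem x0_succ (τ : ℝ) : x0 F (τ + 1) = tz F (-τ - 1 / 2) (-1) 0 * x1 F τ := by
  classical
  apply cf_ext
  intro a i j
  unfold x0 x1
  rw [Hs.cf_tz_mul, cf_ser, cf_ser]
  have h1 : (j = 0 ∧ exk 1 (τ + 1) i = a) ↔
      (j - 0 = 0 ∧ exk 1 τ (i - -1) = a - (-τ - 1 / 2)) := by
    have e1 : exk 1 τ (i - -1) = exk 1 (τ + 1) i + τ + 1 / 2 := by
      unfold exk
      push_cast
      ring
    rw [e1, sub_zero]
    constructor
    · rintro ⟨h2, h3⟩
      exact ⟨h2, by linarith⟩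
    · rintro ⟨h2, h3⟩
      exact ⟨h2, by linarith⟩
  have h2 : (i % 2 = 0) ↔ ((i - -1) % 2 = 1) := by omega
  simp only [h1, h2]

theorem x1_succ (τ : ℝ) : x1 F (τ + 1) = tz F (-τ - 1 / 2) (-1) 0 * x0 F τ := by
  classical
  apply cf_ext
  intro a i j
  unfold x0 x1
  rw [Hs.cf_tz_mul, cf_ser, cf_ser]
  have h1 : (j = 0 ∧ exk 1 (τ + 1) i = a) ↔
      (j - 0 = 0 ∧ exk 1 τ (i - -1) = a - (-τ - 1 / 2)) := by
    have e1 : exk 1 τ (i - -1) = exk 1 (τ + 1) i + τ + 1 / 2 := by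
      unfold exk
      push_cast
      ring
    rw [e1, sub_zero]
    constructor
    · rintro ⟨h2, h3⟩
      exact ⟨h2, by linarith⟩
    · rintro ⟨h2, h3⟩
      exact ⟨h2, by linarith⟩
  have h2 : (i % 2 = 1) ↔ ((i - -1) % 2 = 0) := by omega
  simp only [h1, h2]

theorem cf_neg (x : HR F) (a : ℝ) (i j : ℤ) : cf (-x) a i j = -cf x a i j := rfl

theorem ww_succ (τ : ℝ) : ww F (τ + 1) = -(tz F (-2 * τ - 1) (-2) 0 * ww F τ) := by
  classical
  apply cf_ext
  intro a i j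
  rw [cf_neg, Hs.cf_tz_mul]
  unfold ww
  rw [cf_ser, cf_ser]
  have h1 : (j = 0 ∧ exk 3 (τ + 1) i = a) ↔
      (j - 0 = 0 ∧ exk 3 τ (i - -2) = a - (-2 * τ - 1)) := by
    have e1 : exk 3 τ (i - -2) = exk 3 (τ + 1) i + 2 * τ + 1 := by
      unfold exk
      push_cast
      ring
    rw [e1, sub_zero]
    constructor
    · rintro ⟨h2, h3⟩
      exact ⟨h2, by linarith⟩
    · rintro ⟨h2, h3⟩
      exact ⟨h2, by linarith⟩
  have h2 : ((i - -2) % 4 = 1) ↔ (i % 4 = 3) := by omega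
  have h3 : ((i - -2) % 4 = 3) ↔ (i % 4 = 1) := by omega
  simp only [h1, h2, h3]
  split_ifs with h4 h5 h6
  · omega
  · rw [neg_neg]
  · rfl
  · rw [neg_zero]
  · rw [neg_zero]

theorem tz_mul_tz (a b : ℝ) (i j k l : ℤ) :
    tz F a i j * tz F b k l = tz F (a + b) (i + k) (j + l) := by
  unfold tz
  rw [HahnSeries.single_mul_single, AddMonoidAlgebra.single_mul_single, one_mul]
  rfl

theorem tz_four (τ : ℝ) : tz F (-τ - 1 / 2) (-1) 0 ^ 4 = tz F (-4 * τ - 2) (-4) 0 := by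
  have h : tz F (-τ - 1 / 2) (-1) 0 ^ 4 = tz F (-τ - 1 / 2) (-1) 0 * tz F (-τ - 1 / 2) (-1) 0 *
      tz F (-τ - 1 / 2) (-1) 0 * tz F (-τ - 1 / 2) (-1) 0 := by ring
  rw [h, tz_mul_tz, tz_mul_tz, tz_mul_tz]
  congr 1
  ring

theorem tz_two (τ : ℝ) : tz F (-2 * τ - 1) (-2) 0 ^ 2 = tz F (-4 * τ - 2) (-4) 0 := by
  rw [sq, tz_mul_tz]
  congr 1
  ring

/-! ### scaling -/

theorem Sc_ser (k : ℕ) (c : ℤ → F) (τ s : ℝ) : Sc s (ser k c τ) (ser k c (τ + s)) := by
  classical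
  intro a i j
  rw [cf_ser, cf_ser]
  refine if_congr ?_ rfl rfl
  unfold exk
  refine and_congr_right fun _ => ?_
  constructor
  · intro h; linarith
  · intro h; linarith

theorem Sc_pow {s : ℝ} {x y : HR F} (h : Sc s x y) (n : ℕ) : Sc s (x ^ (n + 1)) (y ^ (n + 1)) := by
  induction n with
  | zero => simpa using h
  | succ n ih =>
    rw [pow_succ x (n + 1), pow_succ y (n + 1)]
    exact ih.mul h

/-! ### the grading modulo two -/

/-- all exponents of `z` are congruent to `r` modulo 2, and `Y` does not occur -/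
def Gr (r : ZMod 2) (x : HR F) : Prop := ∀ a i j, cf x a i j ≠ 0 → j = 0 ∧ (i : ZMod 2) = r

theorem Gr.mul {r s : ZMod 2} {x y : HR F} (hx : Gr r x) (hy : Gr s y) : Gr (r + s) (x * y) := by
  classical
  intro a i j h
  unfold cf at h
  rw [HahnSeries.coeff_mul, AddMonoidAlgebra.coeff_sum, Finsupp.finsetSum_apply] at h
  obtain ⟨p, _, hp⟩ := Finset.exists_ne_zero_of_sum_ne_zero h
  have h1 : (i, j) ∈ (x.coeff p.1 * y.coeff p.2).coeff.support := Finsupp.mem_support_iff.2 hp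
  have h2 := AddMonoidAlgebra.support_coeff_mul_subset _ _ h1
  rw [Finset.mem_add] at h2
  obtain ⟨m, hm, n, hn, hmn⟩ := h2
  obtain ⟨h3, h4⟩ := hx p.1 m.1 m.2 (Finsupp.mem_support_iff.1 hm)
  obtain ⟨h5, h6⟩ := hy p.2 n.1 n.2 (Finsupp.mem_support_iff.1 hn)
  have h7 := congrArg Prod.fst hmn
  have h8 := congrArg Prod.snd hmn
  simp only [Prod.fst_add, Prod.snd_add] at h7 h8
  constructor
  · omega
  · rw [← h7, Int.cast_add, h4, h6]

theorem Gr.add {r : ZMod 2} {x y : HR F} (hx : Gr r x) (hy : Gr r y) : Gr r (x + y) := by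
  intro a i j h
  by_cases h1 : cf x a i j = 0
  · apply hy a i j
    intro h2
    apply h
    rw [cf_add, h1, h2, add_zero]
  · exact hx a i j h1

theorem Gr.incl (c : HK F) : Gr 0 (incl c) := by
  intro a i j h
  rw [cf_incl] at h
  split_ifs at h with h1
  · exact ⟨h1.2, by rw [h1.1]; simp⟩
  · exact absurd rfl h

theorem Gr_x0 (τ : ℝ) : Gr 0 (x0 F τ) := by
  classical
  intro a i j h
  unfold x0 at h
  rw [cf_ser] at h
  split_ifs at h with h1 h2
  · refine ⟨h1.1, ?_⟩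
    rw [ZMod.intCast_zmod_eq_zero_iff_dvd]
    exact_mod_cast Int.dvd_of_emod_eq_zero h2
  · exact absurd rfl h
  · exact absurd rfl h

theorem Gr_x1 (τ : ℝ) : Gr 1 (x1 F τ) := by
  classical
  intro a i j h
  unfold x1 at h
  rw [cf_ser] at h
  split_ifs at h with h1 h2
  · refine ⟨h1.1, ?_⟩
    have h3 : ((i - 1 : ℤ) : ZMod 2) = 0 := by
      rw [ZMod.intCast_zmod_eq_zero_iff_dvd]
      push_cast
      omega
    have h4 : (i : ZMod 2) = ((i - 1 : ℤ) : ZMod 2) + 1 := by push_cast; ring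
    rw [h4, h3, zero_add]
  · exact absurd rfl h
  · exact absurd rfl h

theorem Gr_ww (τ : ℝ) : Gr 1 (ww F τ) := by
  classical
  intro a i j h
  unfold ww at h
  rw [cf_ser] at h
  have key : i % 2 = 1 → (i : ZMod 2) = 1 := by
    intro h2
    have h3 : ((i - 1 : ℤ) : ZMod 2) = 0 := by
      rw [ZMod.intCast_zmod_eq_zero_iff_dvd]
      push_cast
      omega
    have h4 : (i : ZMod 2) = ((i - 1 : ℤ) : ZMod 2) + 1 := by push_cast; ring
    rw [h4, h3, zero_add]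
  split_ifs at h with h1 h2 h3
  · exact ⟨h1.1, key (by omega)⟩
  · exact ⟨h1.1, key (by omega)⟩
  · exact absurd rfl h
  · exact absurd rfl h

theorem Gr_sq {r : ZMod 2} {x : HR F} (h : Gr r x) : Gr 0 (x ^ 2) := by
  have h1 := h.mul h
  have e : ∀ l : ZMod 2, l + l = 0 := by decide
  rw [e] at h1
  rw [sq]
  exact h1

theorem Gr_four {r : ZMod 2} {x : HR F} (h : Gr r x) : Gr 0 (x ^ 4) := by
  have h1 := Gr_sq (Gr_sq h)
  rw [← pow_mul] at h1
  exact h1

/-! ### the three functions -/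

/-- `x0 ^ 4 + x1 ^ 4` -/
noncomputable def U (F : Type) [Field F] (τ : ℝ) : HR F := x0 F τ ^ 4 + x1 F τ ^ 4
/-- `x0 ^ 2 * x1 ^ 2` -/
noncomputable def V (F : Type) [Field F] (τ : ℝ) : HR F := x0 F τ ^ 2 * x1 F τ ^ 2
/-- `w ^ 2` -/
noncomputable def W (F : Type) [Field F] (τ : ℝ) : HR F := ww F τ ^ 2

theorem U_succ (τ : ℝ) : U F (τ + 1) = tz F (-4 * τ - 2) (-4) 0 * U F τ := by
  unfold U
  rw [x0_succ, x1_succ, ← tz_four]
  ring

theorem V_succ (τ : ℝ) : V F (τ + 1) = tz F (-4 * τ - 2) (-4) 0 * V F τ := by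
  unfold V
  rw [x0_succ, x1_succ, ← tz_four]
  ring

theorem W_succ (τ : ℝ) : W F (τ + 1) = tz F (-4 * τ - 2) (-4) 0 * W F τ := by
  unfold W
  rw [ww_succ, ← tz_two]
  ring

theorem Gr_U (τ : ℝ) : Gr 0 (U F τ) := (Gr_four (Gr_x0 τ)).add (Gr_four (Gr_x1 τ))

theorem Gr_V (τ : ℝ) : Gr 0 (V F τ) := by
  have h := (Gr_sq (Gr_x0 (F := F) τ)).mul (Gr_sq (Gr_x1 τ))
  rw [add_zero] at h
  exact h

theorem Gr_W (τ : ℝ) : Gr 0 (W F τ) := Gr_sq (Gr_ww τ)

theorem Sc_U (τ s : ℝ) : Sc s (U F τ) (U F (τ + s)) :=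
  (Sc_pow (Sc_ser 1 _ τ s) 3).add (Sc_pow (Sc_ser 1 _ τ s) 3)

theorem Sc_V (τ s : ℝ) : Sc s (V F τ) (V F (τ + s)) :=
  (Sc_pow (Sc_ser 1 _ τ s) 1).mul (Sc_pow (Sc_ser 1 _ τ s) 1)

theorem Sc_W (τ s : ℝ) : Sc s (W F τ) (W F (τ + s)) := Sc_pow (Sc_ser 3 _ τ s) 1

/-! ### the series of the coefficients at `z ^ i` -/

/-- the coefficient at `(i, 0)` -/
noncomputable def ci (i : ℤ) : ZeroHom (Lau F) F where
  toFun p := p.coeff (i, 0)
  map_zero' := rfl

/-- the series of the coefficients at `(i, 0)` -/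
noncomputable def co (i : ℤ) (x : HR F) : HK F := x.map (ci i)

theorem co_coeff (i : ℤ) (x : HR F) (a : ℝ) : (co i x).coeff a = cf x a i 0 := rfl

theorem co_add (i : ℤ) (x y : HR F) : co i (x + y) = co i x + co i y := by
  ext a
  rfl

theorem co_incl_mul (i : ℤ) (c : HK F) (x : HR F) : co i (incl c * x) = c * co i x := by
  classical
  ext a
  rw [co_coeff]
  unfold cf
  have h1 : (incl c).support ⊆ c.support := by
    intro b hb hc
    apply hb
    show AddMonoidAlgebra.singleZeroRingHom (c.coeff b) = 0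
    rw [hc, map_zero]
  have h2 : (co i x).support ⊆ x.support := by
    intro b hb hc
    apply hb
    rw [co_coeff]
    unfold cf
    rw [hc]
    rfl
  rw [HahnSeries.coeff_mul_left' c.isPWO_support h1,
    HahnSeries.coeff_mul_right' x.isPWO_support h2, AddMonoidAlgebra.coeff_sum,
    Finsupp.finsetSum_apply]
  refine Finset.sum_congr rfl fun ij _ => ?_
  rw [co_coeff]
  unfold cf
  exact AddMonoidAlgebra.coeff_single_zero_mul _ _ _

/-! ### vanishing -/

/-- a combination of the three functions without coefficients at `z ^ 0` and `z ^ 2` vanishes -/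
theorem vanish (τ : ℝ) (p q r : HK F)
    (h0 : co 0 (incl p * W F τ + incl q * U F τ + incl r * V F τ) = 0)
    (h2 : co 2 (incl p * W F τ + incl q * U F τ + incl r * V F τ) = 0) :
    incl p * W F τ + incl q * U F τ + incl r * V F τ = 0 := by
  obtain ⟨G, hG⟩ : ∃ G : ℝ → HR F, ∀ τ', G τ' = incl p * W F τ' + incl q * U F τ' +
    incl r * V F τ' := ⟨_, fun _ => rfl⟩
  rw [← hG] at h0 h2 ⊢
  have hgr : Gr 0 (G τ) := by
    rw [hG]
    have h1 := (Gr.incl p).mul (Gr_W (F := F) τ)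
    have h2 := (Gr.incl q).mul (Gr_U (F := F) τ)
    have h3 := (Gr.incl r).mul (Gr_V (F := F) τ)
    rw [add_zero] at h1 h2 h3
    exact (h1.add h2).add h3
  have hs : G (τ + 1) = tz F (-4 * τ - 2) (-4) 0 * G τ := by
    rw [hG, hG, W_succ, U_succ, V_succ]
    ring
  have hsc : Sc 1 (G τ) (G (τ + 1)) := by
    rw [hG, hG]
    exact (((Sc.incl 1 p).mul (Sc_W τ 1)).add ((Sc.incl 1 q).mul (Sc_U τ 1))).add
      ((Sc.incl 1 r).mul (Sc_V τ 1))
  have hrec : ∀ (a : ℝ) (i : ℤ), cf (G τ) a i 0 = cf (G τ) (a + i + 4 * τ + 2) (i + 4) 0 := by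
    intro a i
    have h1 := hsc a i 0
    rw [hs, Hs.cf_tz_mul] at h1
    rw [← h1]
    congr 1
    · ring
  have hall : ∀ (i0 : ℤ), (∀ a, cf (G τ) a i0 0 = 0) →
      ∀ (k : ℤ) (a : ℝ), cf (G τ) a (i0 + 4 * k) 0 = 0 := by
    intro i0 hi0 k
    induction k using Int.induction_on with
    | zero =>
      intro a
      have e : i0 + 4 * 0 = i0 := by ring
      rw [e]
      exact hi0 a
    | succ k ih =>
      intro a
      have h1 := hrec (a - ((i0 + 4 * (k : ℤ) : ℤ) : ℝ) - 4 * τ - 2) (i0 + 4 * (k : ℤ))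
      rw [ih] at h1
      have e1 : a - ((i0 + 4 * (k : ℤ) : ℤ) : ℝ) - 4 * τ - 2 + ((i0 + 4 * (k : ℤ) : ℤ) : ℝ) +
        4 * τ + 2 = a := by ring
      have e2 : i0 + 4 * (k : ℤ) + 4 = i0 + 4 * ((k : ℤ) + 1) := by ring
      rw [e1, e2] at h1
      exact h1.symm
    | pred k ih =>
      intro a
      have h1 := hrec a (i0 + 4 * (-(k : ℤ) - 1))
      have e2 : i0 + 4 * (-(k : ℤ) - 1) + 4 = i0 + 4 * (-(k : ℤ)) := by ring
      rw [e2, ih] at h1
      exact h1
  have hc0 : ∀ a, cf (G τ) a 0 0 = 0 := by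
    intro a
    rw [← co_coeff, h0]
    rfl
  have hc2 : ∀ a, cf (G τ) a 2 0 = 0 := by
    intro a
    rw [← co_coeff, h2]
    rfl
  apply cf_ext
  intro a i j
  have hz : cf (0 : HR F) a i j = 0 := rfl
  rw [hz]
  by_contra h
  obtain ⟨h1, h2⟩ := hgr a i j h
  have h3 : (2 : ℤ) ∣ i := by
    have := (ZMod.intCast_zmod_eq_zero_iff_dvd i 2).1 h2
    exact_mod_cast this
  obtain ⟨m, rfl⟩ := h3
  rw [h1] at h
  rcases Int.even_or_odd' m with ⟨k, hk | hk⟩
  · have e : 2 * m = 0 + 4 * k := by rw [hk]; ring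
    rw [e] at h
    exact h (hall 0 hc0 k a)
  · have e : 2 * m = 2 + 4 * k := by rw [hk]; ring
    rw [e] at h
    exact h (hall 2 hc2 k a)

/-! ### leading terms at radius zero -/

theorem low_x1 : Low (x1 F 0) (1 / 2) := by
  classical
  intro a ha
  ext ⟨i, j⟩
  show cf (x1 F 0) a i j = 0
  unfold x1
  rw [cf_ser]
  split_ifs with h1 h2
  · exfalso
    obtain ⟨_, h⟩ := h1
    unfold exk at h
    have h3 : i ≠ 0 := by
      rintro rfl
      revert h2
      decide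
    have h4 : 1 ≤ i ^ 2 := by
      have : 0 < i ^ 2 := by positivity
      omega
    have h5 : (1 : ℝ) ≤ (i : ℝ) ^ 2 := by exact_mod_cast h4
    push_cast at h
    linarith
  · rfl
  · rfl

theorem low_x0_sub : Low (x0 F 0 - 1) 2 := by
  classical
  intro a ha
  ext ⟨i, j⟩
  show cf (x0 F 0) a i j - cf (1 : HR F) a i j = 0
  have h1 : cf (1 : HR F) a i j = if i = 0 ∧ j = 0 then (1 : HK F).coeff a else 0 := by
    rw [← cf_incl, map_one]
  rw [h1]
  unfold x0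
  rw [cf_ser, HahnSeries.coeff_one]
  by_cases hi : i = 0
  · subst hi
    have he : exk 1 0 0 = 0 := by unfold exk; simp
    rw [he]
    by_cases hj : j = 0
    · by_cases ha0 : a = 0
      · simp [hj, ha0]
      · simp [hj, ha0, Ne.symm ha0]
    · simp [hj]
  · rw [if_neg (fun h : i = 0 ∧ j = 0 => hi h.1), sub_zero]
    split_ifs with h2 h3
    · exfalso
      obtain ⟨_, h⟩ := h2
      unfold exk at h
      obtain ⟨k, rfl⟩ := Int.dvd_of_emod_eq_zero h3
      have h3 : k ≠ 0 := by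
        rintro rfl
        exact hi rfl
      have h4 : 1 ≤ k ^ 2 := by
        have : 0 < k ^ 2 := by positivity
        omega
      have h5 : (1 : ℝ) ≤ (k : ℝ) ^ 2 := by exact_mod_cast h4
      push_cast at h
      nlinarith
    · rfl
    · rfl

theorem low_x0 : Low (x0 F 0) 0 := by
  have h := (low_x0_sub (F := F)).mono (show (0 : ℝ) ≤ 2 by norm_num)
  have h1 := h.add low_one
  rw [sub_add_cancel] at h1
  exact h1

theorem x0_coeff : (x0 F 0).coeff 0 = 1 := by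
  have h := (low_x0_sub (F := F)) 0 (by norm_num)
  rw [HahnSeries.coeff_sub, sub_eq_zero] at h
  rw [h, HahnSeries.coeff_one, if_pos rfl]

theorem exk_half (i : ℤ) : exk 1 0 i = 1 / 2 ↔ i = 1 ∨ i = -1 := by
  have h1 : exk 1 0 i = 1 / 2 ↔ ((i : ℝ) - 1) * ((i : ℝ) + 1) = 0 := by
    unfold exk
    push_cast
    constructor
    · intro h; linarith
    · intro h; linarith
  rw [h1, mul_eq_zero]
  constructor
  · rintro (h | h)
    · left
      have : (i : ℝ) = 1 := by linarith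
      exact_mod_cast this
    · right
      have : (i : ℝ) = -1 := by linarith
      exact_mod_cast this
  · rintro (rfl | rfl)
    · left; simp
    · right; simp

theorem x1_coeff : (x1 F 0).coeff (1 / 2) =
    AddMonoidAlgebra.single (1, 0) 1 + AddMonoidAlgebra.single (-1, 0) 1 := by
  classical
  ext ⟨i, j⟩
  show cf (x1 F 0) (1 / 2) i j = _
  rw [AddMonoidAlgebra.coeff_add, AddMonoidAlgebra.coeff_single, AddMonoidAlgebra.coeff_single,
    Finsupp.add_apply, Finsupp.single_apply, Finsupp.single_apply]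
  unfold x1
  rw [cf_ser]
  simp only [exk_half]
  by_cases hj : j = 0
  · subst hj
    by_cases h1 : i = 1
    · subst h1
      simp
    · by_cases h2 : i = -1
      · subst h2
        simp
      · rw [if_neg, if_neg, if_neg, add_zero]
        · intro h
          exact h2 (congrArg Prod.fst h).symm
        · intro h
          exact h1 (congrArg Prod.fst h).symm
        · rintro ⟨_, h | h⟩
          · exact h1 h
          · exact h2 h
  · rw [if_neg, if_neg, if_neg, add_zero]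
    · intro h
      exact hj (congrArg Prod.snd h).symm
    · intro h
      exact hj (congrArg Prod.snd h).symm
    · rintro ⟨h, _⟩
      exact hj h

theorem low_U_sub : Low (U F 0 - 1) 2 := by
  have h1 : Low ((x0 F 0 - 1) * ((x0 F 0 + 1) * (x0 F 0 ^ 2 + 1))) (2 + (0 + 0)) :=
    low_x0_sub.mul ((low_x0.add low_one).mul ((low_x0.pow_zero' 2).add low_one))
  have h2 : Low (x1 F 0 ^ 4) (((4 : ℕ) : ℝ) * (1 / 2)) := low_x1.pow 4
  have e1 : (2 : ℝ) + (0 + 0) = 2 := by norm_num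
  have e2 : ((4 : ℕ) : ℝ) * (1 / 2) = 2 := by norm_num
  rw [e1] at h1
  rw [e2] at h2
  have h3 := h1.add h2
  have e3 : (x0 F 0 - 1) * ((x0 F 0 + 1) * (x0 F 0 ^ 2 + 1)) + x1 F 0 ^ 4 = U F 0 - 1 := by
    unfold U
    ring
  rw [e3] at h3
  exact h3

theorem cf_one (a : ℝ) (i j : ℤ) :
    cf (1 : HR F) a i j = if i = 0 ∧ j = 0 then (1 : HK F).coeff a else 0 := by
  rw [← cf_incl, map_one]

theorem U_cf {a : ℝ} (ha : a < 2) (i : ℤ) : cf (U F 0) a i 0 = cf (1 : HR F) a i 0 := by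
  have h := low_U_sub (F := F) a ha
  have h1 : cf (U F 0 - 1) a i 0 = 0 := by
    unfold cf
    rw [h]
    rfl
  have h2 : cf (U F 0 - 1) a i 0 = cf (U F 0) a i 0 - cf (1 : HR F) a i 0 := rfl
  rw [h2, sub_eq_zero] at h1
  exact h1

theorem low_V : Low (V F 0) 1 := by
  have h1 : Low (x1 F 0 ^ 2) (((2 : ℕ) : ℝ) * (1 / 2)) := low_x1.pow 2
  have h2 := ((low_x0 (F := F)).pow_zero' 2).mul h1
  have e : (0 : ℝ) + ((2 : ℕ) : ℝ) * (1 / 2) = 1 := by norm_num
  rw [e] at h2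
  exact h2

theorem V_coeff : cf (V F 0) 1 2 0 = 1 := by
  have h1 : Low (x1 F 0 ^ 2) (((2 : ℕ) : ℝ) * (1 / 2)) := low_x1.pow 2
  have h2 : (x1 F 0 ^ 2).coeff (((2 : ℕ) : ℝ) * (1 / 2)) = (x1 F 0).coeff (1 / 2) ^ 2 :=
    low_x1.coeff_pow 2
  have h3 : (x0 F 0 ^ 2).coeff (((2 : ℕ) : ℝ) * 0) = (x0 F 0).coeff 0 ^ 2 := low_x0.coeff_pow 2
  have h4 : Low (x0 F 0 ^ 2) (((2 : ℕ) : ℝ) * 0) := low_x0.pow 2
  have h5 := h4.coeff_mul h1
  have e : ((2 : ℕ) : ℝ) * 0 + ((2 : ℕ) : ℝ) * (1 / 2) = 1 := by norm_num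
  rw [h2, h3, x0_coeff, x1_coeff, e, one_pow, one_mul] at h5
  unfold cf V
  rw [h5, add_sq, AddMonoidAlgebra.single_pow, AddMonoidAlgebra.single_pow, mul_assoc,
    AddMonoidAlgebra.single_mul_single, AddMonoidAlgebra.coeff_add, AddMonoidAlgebra.coeff_add,
    Finsupp.add_apply, Finsupp.add_apply]
  have e2 : (2 : Lau F) = AddMonoidAlgebra.single 0 2 := by
    rw [show (2 : Lau F) = 1 + 1 by norm_num, AddMonoidAlgebra.one_def,
      ← AddMonoidAlgebra.single_add]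
    norm_num
  rw [e2, AddMonoidAlgebra.single_mul_single]
  simp [AddMonoidAlgebra.coeff_single]

end Q3aux

open Q3aux

theorem exists_rel (F : Type) [Field F] [CharZero F] (τ : ℝ) : ∃ A B : HK F, ww F τ ^ 2 =
    incl A * (x0 F τ ^ 4 + x1 F τ ^ 4) + incl B * (x0 F τ ^ 2 * x1 F τ ^ 2) := by
  obtain ⟨u0, hu0⟩ : ∃ u : HK F, u = co 0 (U F τ) := ⟨_, rfl⟩
  obtain ⟨u2, hu2⟩ : ∃ u : HK F, u = co 2 (U F τ) := ⟨_, rfl⟩
  obtain ⟨v0, hv0⟩ : ∃ u : HK F, u = co 0 (V F τ) := ⟨_, rfl⟩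
  obtain ⟨v2, hv2⟩ : ∃ u : HK F, u = co 2 (V F τ) := ⟨_, rfl⟩
  obtain ⟨w0, hw0⟩ : ∃ u : HK F, u = co 0 (W F τ) := ⟨_, rfl⟩
  obtain ⟨w2, hw2⟩ : ∃ u : HK F, u = co 2 (W F τ) := ⟨_, rfl⟩
  have su : ∀ (a : ℝ) (i : ℤ), cf (U F τ) a i 0 = cf (U F 0) (a - τ * i) i 0 := by
    intro a i
    have h := Sc_U (F := F) 0 τ (a - τ * i) i 0
    rw [zero_add, sub_add_cancel] at h
    exact h
  have sv : ∀ (a : ℝ) (i : ℤ), cf (V F τ) a i 0 = cf (V F 0) (a - τ * i) i 0 := by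
    intro a i
    have h := Sc_V (F := F) 0 τ (a - τ * i) i 0
    rw [zero_add, sub_add_cancel] at h
    exact h
  have lv : ∀ (a : ℝ) (i : ℤ), a < 1 → cf (V F 0) a i 0 = 0 := by
    intro a i ha
    unfold cf
    rw [low_V a ha]
    rfl
  -- the four series
  have U0 : Low u0 0 := by
    intro a ha
    rw [hu0, co_coeff, su, U_cf, cf_one, if_pos ⟨rfl, rfl⟩, HahnSeries.coeff_one, if_neg]
    · push_cast
      intro h
      linarith
    · push_cast
      linarith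
  have U0' : u0.coeff 0 = 1 := by
    rw [hu0, co_coeff, su, U_cf, cf_one, if_pos ⟨rfl, rfl⟩, HahnSeries.coeff_one, if_pos]
    · push_cast
      ring
    · push_cast
      linarith
  have U2 : Low u2 (2 + 2 * τ) := by
    intro a ha
    rw [hu2, co_coeff, su, U_cf, cf_one, if_neg]
    · rintro ⟨h, _⟩
      exact absurd h (by decide)
    · push_cast
      linarith
  have V0 : Low v0 1 := by
    intro a ha
    rw [hv0, co_coeff, sv, lv]
    push_cast
    linarith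
  have V2 : Low v2 (1 + 2 * τ) := by
    intro a ha
    rw [hv2, co_coeff, sv, lv]
    push_cast
    linarith
  have V2' : v2.coeff (1 + 2 * τ) = 1 := by
    rw [hv2, co_coeff, sv]
    have e : 1 + 2 * τ - τ * ((2 : ℤ) : ℝ) = 1 := by push_cast; ring
    rw [e, V_coeff]
  -- the determinant
  have hD : u0 * v2 - u2 * v0 ≠ 0 := by
    intro h
    have h1 := U0.coeff_mul V2
    rw [zero_add, U0', V2', one_mul] at h1
    have h2 := (U2.mul V0) (1 + 2 * τ) (by linarith)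
    have h3 : (u0 * v2 - u2 * v0).coeff (1 + 2 * τ) = 0 := by
      rw [h]
      rfl
    rw [HahnSeries.coeff_sub, h1, h2, sub_zero] at h3
    exact one_ne_zero h3
  have hv := vanish τ (u0 * v2 - u2 * v0) (-(w0 * v2 - w2 * v0)) (-(u0 * w2 - u2 * w0)) (by
      rw [co_add, co_add, co_incl_mul, co_incl_mul, co_incl_mul, ← hw0, ← hu0, ← hv0]
      ring) (by
      rw [co_add, co_add, co_incl_mul, co_incl_mul, co_incl_mul, ← hw2, ← hu2, ← hv2]
      ring)
  obtain ⟨D, hDD⟩ : ∃ D : HK F, D = u0 * v2 - u2 * v0 := ⟨_, rfl⟩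
  obtain ⟨A, hA⟩ : ∃ A : HK F, A = w0 * v2 - w2 * v0 := ⟨_, rfl⟩
  obtain ⟨B, hB⟩ : ∃ B : HK F, B = u0 * w2 - u2 * w0 := ⟨_, rfl⟩
  rw [← hDD, ← hA, ← hB] at hv
  rw [← hDD] at hD
  refine ⟨D⁻¹ * A, D⁻¹ * B, ?_⟩
  have h1 : incl D⁻¹ * incl D = 1 := by
    rw [← map_mul, inv_mul_cancel₀ hD, map_one]
  have h2 : incl D⁻¹ * (incl D * W F τ + incl (-A) * U F τ + incl (-B) * V F τ) = 0 := by
    rw [hv, mul_zero]
  have h3 : incl D⁻¹ * (incl D * W F τ + incl (-A) * U F τ + incl (-B) * V F τ) =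
      W F τ - (incl (D⁻¹ * A) * U F τ + incl (D⁻¹ * B) * V F τ) := by
    rw [map_neg, map_neg, map_mul, map_mul]
    linear_combination W F τ * h1
  rw [h3, sub_eq_zero] at h2
  exact h2

end Pool.Agent.TH603.ED
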