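import Pool.Agent.TH603.ED.Defs
import Pool.Agent.TH603.EL.Scal2

/-! Leading terms of the forms in the theta functions of degree two (helper124, job 4011). -/

set_option autoImplicit false

namespace Pool.Agent.TH603.ED

open Pool.Agent.TH603.EL

variable {F : Type} [Field F]

namespace Q4

open Pool.Agent.TH603.EL.Scal2

/-! ### leading terms -/

/-- the leading term of `ser` -/
lemma ser_lead (k : ℕ) (c : ℤ → F) (τ : ℝ) (i0 : ℤ)
    (h : ∀ i, i ≠ i0 → c i ≠ 0 → exk k τ i0 < exk k τ i) :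
    Low (ser k c τ) (exk k τ i0) ∧
      (ser k c τ).coeff (exk k τ i0) = AddMonoidAlgebra.single (i0, 0) (c i0) := by
  classical
  constructor
  · intro a ha
    ext ⟨i, j⟩
    have := cf_ser k c τ a i j
    unfold cf at this
    rw [this]
    split_ifs with h1
    · by_contra hne
      by_cases hi : i = i0
      · subst hi; linarith [h1.2]
      · have := h i hi (by simpa using hne)
        linarith [h1.2]
    · simp
  · ext ⟨i, j⟩
    have := cf_ser k c τ (exk k τ i0) i j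
    unfold cf at this
    rw [this]
    by_cases hi : i = i0
    · subst hi
      by_cases hj : j = 0
      · subst hj
        simp
      · rw [if_neg (fun h1 => hj h1.1)]
        simp [Ne.symm hj]
    · have e : (AddMonoidAlgebra.single ((i0, 0) : ℤ × ℤ) (c i0)).coeff (i, j) = 0 := by
        simp [Ne.symm hi]
      rw [e]
      split_ifs with h1
      · by_contra hne
        have := h i hi hne
        linarith [h1.2]
      · rfl

lemma x0_lead {τ : ℝ} (h0 : 0 < τ) (h1 : τ < 1) :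
    Low (x0 F τ) 0 ∧ (x0 F τ).coeff 0 = AddMonoidAlgebra.single (0, 0) 1 := by
  have h := ser_lead 1 (fun i => if i % 2 = 0 then (1 : F) else 0) τ 0 (by
    intro i hi hc
    have hev : i % 2 = 0 := by
      by_contra h2
      simp [h2] at hc
    unfold exk
    have hi' : i ≤ -2 ∨ 2 ≤ i := by omega
    push_cast
    rcases hi' with h2 | h2
    · have h3 : (i : ℝ) ≤ -2 := by exact_mod_cast h2
      nlinarith
    · have h3 : (2 : ℝ) ≤ i := by exact_mod_cast h2
      nlinarith)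
  have e : exk 1 τ 0 = 0 := by simp [exk]
  rw [e] at h
  simpa [x0] using h

lemma x1_lead {τ : ℝ} (h0 : 0 < τ) (h1 : τ < 1) :
    Low (x1 F τ) (1 / 2 - τ) ∧
      (x1 F τ).coeff (1 / 2 - τ) = AddMonoidAlgebra.single (-1, 0) 1 := by
  have h := ser_lead 1 (fun i => if i % 2 = 1 then (1 : F) else 0) τ (-1) (by
    intro i hi hc
    have hev : i % 2 = 1 := by
      by_contra h2
      simp [h2] at hc
    unfold exk
    have hi' : i ≤ -3 ∨ 1 ≤ i := by omega
    push_cast
    rcases hi' with h2 | h2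
    · have h3 : (i : ℝ) ≤ -3 := by exact_mod_cast h2
      nlinarith
    · have h3 : (1 : ℝ) ≤ i := by exact_mod_cast h2
      nlinarith)
  have e : exk 1 τ (-1) = 1 / 2 - τ := by
    simp [exk]
    ring
  rw [e] at h
  simpa [x1] using h

lemma ww_lead {τ : ℝ} (h0 : 0 < τ) (h1 : τ < 1) :
    Low (ww F τ) (1 / 4 - τ) ∧
      (ww F τ).coeff (1 / 4 - τ) = AddMonoidAlgebra.single (-1, 0) (-1) := by
  have h := ser_lead 3 (fun i => if i % 4 = 1 then (1 : F) else if i % 4 = 3 then -1 else 0) τ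
    (-1) (by
    intro i hi hc
    have hev : i % 4 = 1 ∨ i % 4 = 3 := by
      by_contra h2
      rw [not_or] at h2
      simp [h2.1, h2.2] at hc
    unfold exk
    have hi' : i ≤ -3 ∨ 1 ≤ i := by omega
    push_cast
    rcases hi' with h2 | h2
    · have h3 : (i : ℝ) ≤ -3 := by exact_mod_cast h2
      nlinarith
    · have h3 : (1 : ℝ) ≤ i := by exact_mod_cast h2
      nlinarith)
  have e : exk 3 τ (-1) = 1 / 4 - τ := by
    simp [exk]
    ring
  rw [e] at h
  simpa [ww] using h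

lemma mono_lead {τ : ℝ} (h0 : 0 < τ) (h1 : τ < 1) (n k : ℕ) :
    Low (x0 F τ ^ n * x1 F τ ^ k) (k * (1 / 2 - τ)) ∧
      (x0 F τ ^ n * x1 F τ ^ k).coeff (k * (1 / 2 - τ)) =
        AddMonoidAlgebra.single (-(k : ℤ), 0) 1 := by
  obtain ⟨a1, a2⟩ := x0_lead (F := F) h0 h1
  obtain ⟨b1, b2⟩ := x1_lead (F := F) h0 h1
  have c1 := a1.pow n
  have c2 := a1.coeff_pow n
  rw [mul_zero] at c1 c2
  have d1 := b1.pow k
  have d2 := b1.coeff_pow k
  constructor
  · have := c1.mul d1
    rwa [zero_add] at this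
  · have := c1.coeff_mul d1
    rw [zero_add] at this
    rw [this, c2, d2, a2, b2]
    simp [AddMonoidAlgebra.single_pow, AddMonoidAlgebra.single_mul_single]

lemma incl_coeff (c : HK F) (a : ℝ) :
    (incl c).coeff a = AddMonoidAlgebra.single (0, 0) (c.coeff a) := by
  ext ⟨i, j⟩
  have := cf_incl c a i j
  unfold cf at this
  rw [this]
  by_cases h : i = 0 ∧ j = 0
  · obtain ⟨rfl, rfl⟩ := h
    simp
  · rw [if_neg h]
    have : ((0 : ℤ), (0 : ℤ)) ≠ (i, j) := by
      intro h'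
      apply h
      simp only [Prod.mk.injEq] at h'
      exact ⟨h'.1.symm, h'.2.symm⟩
    simp [this]

lemma term_lead {τ : ℝ} (h0 : 0 < τ) (h1 : τ < 1) (n k : ℕ) (a : HK F) (c : ℝ)
    (ha : Low a (c - k * (1 / 2 - τ))) :
    Low (incl a * (x0 F τ ^ n * x1 F τ ^ k)) c ∧
      (incl a * (x0 F τ ^ n * x1 F τ ^ k)).coeff c =
        AddMonoidAlgebra.single (-(k : ℤ), 0) (a.coeff (c - k * (1 / 2 - τ))) := by
  obtain ⟨p1, p2⟩ := mono_lead (F := F) h0 h1 n k
  have q1 := ha.incl.mul p1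
  have q2 := ha.incl.coeff_mul p1
  rw [sub_add_cancel] at q1 q2
  refine ⟨q1, ?_⟩
  rw [q2, p2, incl_coeff]
  simp [AddMonoidAlgebra.single_mul_single]

/-- nonzero series have a leading term -/
lemma exists_lead {B : Type} [CommRing B] {x : HahnSeries ℝ B} (hx : x ≠ 0) :
    ∃ c : ℝ, x.coeff c ≠ 0 ∧ Low x c := by
  refine ⟨x.order, ?_, fun a ha => HahnSeries.coeff_eq_zero_of_lt_order ha⟩
  exact fun h => hx (HahnSeries.coeff_order_eq_zero.1 h)

lemma fm_lead {m : ℕ} {a : ℕ → HK F} {τ : ℝ} (h0 : 0 < τ) (h1 : τ < 1)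
    (h : ∃ k, k ≤ m ∧ a k ≠ 0) :
    ∃ c : ℝ, (fm m a τ).coeff c ≠ 0 ∧ Low (fm m a τ) c ∧
      ∀ i j : ℤ, cf (fm m a τ) c i j ≠ 0 → -(m : ℤ) ≤ i ∧ i ≤ 0 := by
  classical
  set S := (Finset.range (m + 1)).filter (fun k => a k ≠ 0) with hS
  have hSne : S.Nonempty := by
    obtain ⟨k, hk, hak⟩ := h
    exact ⟨k, by rw [hS, Finset.mem_filter, Finset.mem_range]; exact ⟨by omega, hak⟩⟩
  obtain ⟨k0, hk0, hmin⟩ := Finset.exists_min_image S
    (fun k => (a k).order + k * (1 / 2 - τ)) hSne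
  rw [hS, Finset.mem_filter, Finset.mem_range] at hk0
  set c := (a k0).order + k0 * (1 / 2 - τ) with hc
  have hlow : ∀ k ∈ Finset.range (m + 1), Low (a k) (c - k * (1 / 2 - τ)) := by
    intro k hk b hb
    by_cases hak : a k = 0
    · rw [hak]; rfl
    · have := hmin k (by rw [hS, Finset.mem_filter]; exact ⟨hk, hak⟩)
      exact HahnSeries.coeff_eq_zero_of_lt_order (by linarith)
  have hterm : ∀ k ∈ Finset.range (m + 1), _ := fun k hk =>
    term_lead (F := F) h0 h1 (m - k) k (a k) c (hlow k hk)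
  have hcoef : (fm m a τ).coeff c = ∑ k ∈ Finset.range (m + 1),
      AddMonoidAlgebra.single (-(k : ℤ), 0) ((a k).coeff (c - k * (1 / 2 - τ))) := by
    unfold fm
    rw [HahnSeries.coeff_sum]
    exact Finset.sum_congr rfl fun k hk => (hterm k hk).2
  have hcf : ∀ i j : ℤ, cf (fm m a τ) c i j = ∑ k ∈ Finset.range (m + 1),
      if (-(k : ℤ) = i ∧ 0 = j) then (a k).coeff (c - k * (1 / 2 - τ)) else 0 := by
    intro i j
    unfold cf
    rw [hcoef]
    induction (Finset.range (m + 1)) using Finset.induction_on with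
    | empty => simp
    | insert q s hq ih =>
      rw [Finset.sum_insert hq, Finset.sum_insert hq, AddMonoidAlgebra.coeff_add,
        Finsupp.add_apply, ih]
      congr 1
      simp [Finsupp.single_apply, Prod.ext_iff]
  refine ⟨c, ?_, ?_, ?_⟩
  · intro hz
    have h2 : cf (fm m a τ) c (-(k0 : ℤ)) 0 = 0 := by
      unfold cf
      rw [hz]
      simp
    rw [hcf, Finset.sum_eq_single k0] at h2
    · rw [if_pos ⟨rfl, rfl⟩] at h2
      have e : c - k0 * (1 / 2 - τ) = (a k0).order := by rw [hc]; ring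
      rw [e] at h2
      exact hk0.2 (HahnSeries.coeff_order_eq_zero.1 h2)
    · intro k _ hk
      rw [if_neg]
      rintro ⟨h3, _⟩
      omega
    · intro h3
      exact absurd (Finset.mem_range.2 hk0.1) h3
  · unfold fm
    exact Low.sum _ _ fun k hk => (hterm k hk).1
  · intro i j hij
    rw [hcf] at hij
    obtain ⟨k, hk, hne⟩ := Finset.exists_ne_zero_of_sum_ne_zero hij
    rw [Finset.mem_range] at hk
    have h3 : -(k : ℤ) = i ∧ 0 = j := by
      by_contra h4
      rw [if_neg h4] at hne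
      exact hne rfl
    omega

/-! ### scaling -/

lemma Sc_ser (k : ℕ) (c : ℤ → F) (τ s : ℝ) : Sc s (ser k c τ) (ser k c (τ + s)) := by
  classical
  intro a i j
  rw [cf_ser, cf_ser]
  refine if_congr ?_ rfl rfl
  unfold exk
  refine and_congr_right fun _ => ?_
  constructor
  · intro h; linarith
  · intro h; linarith

lemma Sc_pow {s : ℝ} {x y : HR F} (h : Sc s x y) (n : ℕ) : Sc s (x ^ n) (y ^ n) := by
  induction n with
  | zero =>
    rw [pow_zero, pow_zero, ← map_one (incl (F := F))]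
    exact Sc.incl s 1
  | succ n ih =>
    rw [pow_succ, pow_succ]
    exact ih.mul h

lemma Sc_sum {s : ℝ} {κ : Type} (t : Finset κ) (f g : κ → HR F)
    (h : ∀ k ∈ t, Sc s (f k) (g k)) : Sc s (∑ k ∈ t, f k) (∑ k ∈ t, g k) := by
  classical
  induction t using Finset.induction_on with
  | empty =>
    rw [Finset.sum_empty, Finset.sum_empty, ← map_zero (incl (F := F))]
    exact Sc.incl s 0
  | insert a t ha ih =>
    rw [Finset.sum_insert ha, Finset.sum_insert ha]
    exact (h a (Finset.mem_insert_self _ _)).add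
      (ih fun k hk => h k (Finset.mem_insert_of_mem hk))

lemma Sc_fm (m : ℕ) (a : ℕ → HK F) (τ s : ℝ) : Sc s (fm m a τ) (fm m a (τ + s)) := by
  unfold fm
  apply Sc_sum
  intro k _
  exact (Sc.incl s (a k)).mul ((Sc_pow (Sc_ser _ _ _ _) _).mul (Sc_pow (Sc_ser _ _ _ _) _))

lemma Sc_gm (m : ℕ) (a b : ℕ → HK F) (τ s : ℝ) : Sc s (gm m a b τ) (gm m a b (τ + s)) := by
  unfold gm
  exact (Sc_fm m a τ s).add ((Sc_fm _ b τ s).mul (Sc_ser _ _ _ _))

/-! ### parity -/

/-- `y` is obtained from `x` by the substitution `z ↦ 1 / z` -/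
def Par (x y : HR F) : Prop := ∀ (v : ℝ) (i j : ℤ), cf y v (-i) j = cf x v i j

lemma Par.add {x y x' y' : HR F} (h : Par x y) (h' : Par x' y') : Par (x + x') (y + y') := by
  intro a i j
  rw [cf_add, cf_add, h a i j, h' a i j]

lemma Par.mul {x y x' y' : HR F} (h : Par x y) (h' : Par x' y') : Par (x * x') (y * y') := by
  intro a i j
  rw [cf_mul, cf_mul]
  symm
  apply finsum_eq_of_bijective (fun p : ℝ × (ℤ × ℤ) => (p.1, (-p.2.1, p.2.2)))
  · constructor
    · intro p q hpq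
      simp only [Prod.mk.injEq, neg_inj] at hpq
      exact Prod.ext hpq.1 (Prod.ext hpq.2.1 hpq.2.2)
    · intro p
      exact ⟨(p.1, (-p.2.1, p.2.2)), by simp⟩
  · intro p
    unfold sm
    simp only
    rw [h p.1 p.2.1 p.2.2]
    congr 1
    rw [← h' (a - p.1) (i - p.2.1) (j - p.2.2)]
    congr 1
    ring

lemma Par.incl (c : HK F) : Par (incl c) (incl c) := by
  intro a i j
  rw [cf_incl, cf_incl]
  simp

lemma Par_pow {x y : HR F} (h : Par x y) (n : ℕ) : Par (x ^ n) (y ^ n) := by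
  induction n with
  | zero =>
    rw [pow_zero, pow_zero, ← map_one (Pool.Agent.TH603.EL.incl (F := F))]
    exact Par.incl 1
  | succ n ih =>
    rw [pow_succ, pow_succ]
    exact ih.mul h

lemma Par_sum {κ : Type} (t : Finset κ) (f g : κ → HR F)
    (h : ∀ k ∈ t, Par (f k) (g k)) : Par (∑ k ∈ t, f k) (∑ k ∈ t, g k) := by
  classical
  induction t using Finset.induction_on with
  | empty =>
    rw [Finset.sum_empty, Finset.sum_empty, ← map_zero (Pool.Agent.TH603.EL.incl (F := F))]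
    exact Par.incl 0
  | insert a t ha ih =>
    rw [Finset.sum_insert ha, Finset.sum_insert ha]
    exact (h a (Finset.mem_insert_self _ _)).add
      (ih fun k hk => h k (Finset.mem_insert_of_mem hk))

lemma Par_ser (k : ℕ) (c : ℤ → F) (hc : ∀ i, c (-i) = c i) (τ : ℝ) :
    Par (ser k c τ) (ser k c (-τ)) := by
  classical
  intro a i j
  rw [cf_ser, cf_ser, hc]
  refine if_congr ?_ rfl rfl
  unfold exk
  refine and_congr_right fun _ => ?_
  push_cast
  constructor
  · intro h; rw [← h]; ring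
  · intro h; rw [← h]; ring

lemma Par_x0 (τ : ℝ) : Par (x0 F τ) (x0 F (-τ)) := by
  apply Par_ser
  intro i
  have : (-i) % 2 = 0 ↔ i % 2 = 0 := by omega
  simp only [this]

lemma Par_x1 (τ : ℝ) : Par (x1 F τ) (x1 F (-τ)) := by
  apply Par_ser
  intro i
  have : (-i) % 2 = 1 ↔ i % 2 = 1 := by omega
  simp only [this]

lemma cf_neg (x : HR F) (a : ℝ) (i j : ℤ) : cf (-x) a i j = -cf x a i j := by
  simp [cf]

lemma Par_ww (τ : ℝ) : Par (ww F τ) (-ww F (-τ)) := by
  classical
  intro a i j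
  rw [cf_neg]
  unfold ww
  rw [cf_ser, cf_ser]
  have e : (j = 0 ∧ exk 3 (-τ) (-i) = a) ↔ (j = 0 ∧ exk 3 τ i = a) := by
    refine and_congr_right fun _ => ?_
    unfold exk
    push_cast
    constructor
    · intro h; rw [← h]; ring
    · intro h; rw [← h]; ring
  simp only [e]
  split_ifs with h1 h2 h3 h4 h5 h6 h7 h8
  all_goals first | rfl | (exfalso; omega) | simp

lemma Par_fm (m : ℕ) (a : ℕ → HK F) (τ : ℝ) : Par (fm m a τ) (fm m a (-τ)) := by
  unfold fm
  apply Par_sum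
  intro k _
  exact (Par.incl (a k)).mul ((Par_pow (Par_x0 τ) _).mul (Par_pow (Par_x1 τ) _))

/-- the odd part -/
lemma two_cf (m : ℕ) (a b : ℕ → HK F) (τ v : ℝ) (i j : ℤ) :
    2 * cf (fm (m - 2) b τ * ww F τ) v i j =
      cf (gm m a b τ) v i j - cf (gm m a b τ) (v - 2 * τ * i) (-i) j := by
  have h1 : cf (gm m a b (-τ)) v (-i) j = cf (gm m a b τ) (v - 2 * τ * i) (-i) j := by
    have := Sc_gm m a b τ (-2 * τ) (v - 2 * τ * i) (-i) j
    rw [← this]
    have e1 : τ + -2 * τ = -τ := by ring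
    have e2 : v - 2 * τ * i + -2 * τ * ((-i : ℤ) : ℝ) = v := by push_cast; ring
    rw [e1, e2]
  have h2 : cf (gm m a b (-τ)) v (-i) j =
      cf (fm m a τ) v i j - cf (fm (m - 2) b τ * ww F τ) v i j := by
    have p1 := Par_fm m a τ v i j
    have p2 := ((Par_fm (m - 2) b τ).mul (Par_ww τ)) v i j
    have e : fm (m - 2) b (-τ) * -ww F (-τ) = -(fm (m - 2) b (-τ) * ww F (-τ)) := by ring
    rw [e, cf_neg] at p2
    unfold gm
    rw [cf_add, p1, ← p2]
    ring
  have h3 : cf (gm m a b τ) v i j =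
      cf (fm m a τ) v i j + cf (fm (m - 2) b τ * ww F τ) v i j := by
    unfold gm
    rw [cf_add]
  rw [← h1, h2, h3]
  ring

end Q4

open Q4 in
theorem fm_ne_zero {m : ℕ} {a : ℕ → HK F} {τ : ℝ} (h0 : 0 < τ) (h1 : τ < 1)
    (h : ∃ k, k ≤ m ∧ a k ≠ 0) : fm m a τ ≠ 0 := by
  obtain ⟨c, hc, _⟩ := fm_lead h0 h1 h
  intro hz
  rw [hz] at hc
  exact hc rfl

open Q4 in
theorem gm_lead [CharZero F] {m : ℕ} {a b : ℕ → HK F} (hb : m < 2 → ∀ k, b k = 0) {τ : ℝ}
    (h0 : 0 < τ) (h1 : τ < 1) (hne : (∃ k, k ≤ m ∧ a k ≠ 0) ∨ ∃ k, k + 2 ≤ m ∧ b k ≠ 0) :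
    ∃ c : ℝ, (gm m a b τ).coeff c ≠ 0 ∧ Low (gm m a b τ) c ∧
      Low (fm (m - 2) b τ) (c - (4 * m + 4)) := by
  by_cases hB : ∃ k, k + 2 ≤ m ∧ b k ≠ 0
  · have hm2 : 2 ≤ m := by obtain ⟨k, hk, _⟩ := hB; omega
    obtain ⟨v, hv1, hv2, hv3⟩ := fm_lead (F := F) (m := m - 2) (a := b) h0 h1 (by
      obtain ⟨k, hk, hbk⟩ := hB
      exact ⟨k, by omega, hbk⟩)
    obtain ⟨w1, w2⟩ := ww_lead (F := F) h0 h1
    -- the leading coefficient of `W`
    have hW : (fm (m - 2) b τ * ww F τ).coeff (v + (1 / 4 - τ)) =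
        (fm (m - 2) b τ).coeff v * AddMonoidAlgebra.single (-1, 0) (-1) := by
      rw [hv2.coeff_mul w1, w2]
    obtain ⟨⟨i, j⟩, hij⟩ : ∃ p : ℤ × ℤ, ((fm (m - 2) b τ).coeff v).coeff p ≠ 0 := by
      by_contra hcon
      push Not at hcon
      apply hv1
      ext p
      rw [hcon p]
      simp
    have hi := hv3 i j hij
    have hWcf : cf (fm (m - 2) b τ * ww F τ) (v + (1 / 4 - τ)) (i - 1) j ≠ 0 := by
      unfold cf
      rw [hW]
      have := AddMonoidAlgebra.coeff_mul_single_apply ((fm (m - 2) b τ).coeff v) (-1 : F)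
        ((-1, 0) : ℤ × ℤ) ((i - 1, j) : ℤ × ℤ)
      rw [this]
      have e : ((i - 1, j) : ℤ × ℤ) + -(-1, 0) = (i, j) := by
        rw [Prod.ext_iff]
        simp
      rw [e]
      simpa using hij
    have htwo := two_cf m a b τ (v + (1 / 4 - τ)) (i - 1) j
    have hg : gm m a b τ ≠ 0 := by
      intro hz
      rw [hz] at htwo
      have : cf (0 : HR F) (v + (1 / 4 - τ)) (i - 1) j - cf (0 : HR F)
          (v + (1 / 4 - τ) - 2 * τ * ((i - 1 : ℤ) : ℝ)) (-(i - 1)) j = 0 := by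
        simp [cf]
      rw [this] at htwo
      rcases mul_eq_zero.1 htwo with h | h
      · exact two_ne_zero h
      · exact hWcf h
    obtain ⟨c, hc1, hc2⟩ := exists_lead hg
    refine ⟨c, hc1, hc2, hv2.mono ?_⟩
    -- `v` is large
    have hi1 : (i : ℝ) ≤ 0 := by exact_mod_cast hi.2
    have hi2 : -((m : ℝ) - 2) ≤ i := by
      have h3 : -((m - 2 : ℕ) : ℤ) ≤ i := hi.1
      have h4 : ((-((m - 2 : ℕ) : ℤ) : ℤ) : ℝ) ≤ i := by exact_mod_cast h3
      push_cast [Nat.cast_sub hm2] at h4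
      exact h4
    have hz : ∀ u : ℝ, u < c → ∀ p q : ℤ, cf (gm m a b τ) u p q = 0 := by
      intro u hu p q
      unfold cf
      rw [hc2 u hu]
      simp
    by_contra hlt
    rw [not_le] at hlt
    have e1 : cf (gm m a b τ) (v + (1 / 4 - τ)) (i - 1) j = 0 := by
      apply hz
      have : (0 : ℝ) ≤ m := by positivity
      linarith
    have e2 : cf (gm m a b τ) (v + (1 / 4 - τ) - 2 * τ * ((i - 1 : ℤ) : ℝ)) (-(i - 1)) j = 0 := by
      apply hz
      push_cast
      have hm0 : (2 : ℝ) ≤ m := by exact_mod_cast hm2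
      have h5 : -(2 * τ * ((i : ℝ) - 1)) ≤ 2 * ((m : ℝ) - 1) := by
        nlinarith
      linarith
    rw [e1, e2, sub_zero] at htwo
    rcases mul_eq_zero.1 htwo with h | h
    · exact two_ne_zero h
    · exact hWcf h
  · -- no odd part
    have hb0 : fm (m - 2) b τ = 0 := by
      rcases Nat.lt_or_ge m 2 with hm | hm
      · unfold fm
        apply Finset.sum_eq_zero
        intro k _
        rw [hb hm k, map_zero, zero_mul]
      · unfold fm
        apply Finset.sum_eq_zero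
        intro k hk
        rw [Finset.mem_range] at hk
        have : b k = 0 := by
          by_contra h
          exact hB ⟨k, by omega, h⟩
        rw [this, map_zero, zero_mul]
    have hA : ∃ k, k ≤ m ∧ a k ≠ 0 := hne.resolve_right hB
    have hgm : gm m a b τ = fm m a τ := by
      unfold gm
      rw [hb0, zero_mul, add_zero]
    obtain ⟨c, hc1, hc2, _⟩ := fm_lead (F := F) h0 h1 hA
    rw [hgm, hb0]
    exact ⟨c, hc1, hc2, low_zero _⟩

end Pool.Agent.TH603.ED
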