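import Pool.Agent.TH603.ED.Defs

/-! Theta functions of degree two: division by `y ^ 2 - Q`. -/

namespace Pool.Agent.TH603.ED

open Pool.Agent.TH603.EL

namespace Q5

section

variable {K : Type} [CommRing K]

/-- the right-hand side -/
noncomputable def rhs (δ d : ℕ) (A B : K) (a b : ℕ → ℕ → K) (S : Type) [CommRing S]
    (ι : K →+* S) (X0 X1 Y : S) : S :=
  ∑ j ∈ Finset.range (d / 2 + 1), X0 ^ (2 * δ * d - δ * (d - 2 * j) - 4 * j) *
    ((∑ k ∈ Finset.range (δ * (d - 2 * j) + 1),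
        ι (a j k) * (X0 ^ (δ * (d - 2 * j) - k) * X1 ^ k)) +
      (∑ k ∈ Finset.range (δ * (d - 2 * j) - 2 + 1),
        ι (b j k) * (X0 ^ (δ * (d - 2 * j) - 2 - k) * X1 ^ k)) * Y) *
    (Y ^ 2 - ι A * (X0 ^ 4 + X1 ^ 4) - ι B * (X0 ^ 2 * X1 ^ 2)) ^ j

/-- the expression `g` can be written in this form -/
def Rep (δ d : ℕ) (A B : K)
    (g : ∀ (S : Type) [CommRing S], (K →+* S) → S → S → S → S) : Prop :=
  ∃ a b : ℕ → ℕ → K, (∀ j, δ * (d - 2 * j) < 2 → ∀ k, b j k = 0) ∧
    ∀ (S : Type) [CommRing S] (ι : K →+* S) (X0 X1 Y : S),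
      g S ι X0 X1 Y = rhs δ d A B a b S ι X0 X1 Y

variable {δ d : ℕ} {A B : K}

theorem rhs_add (a b a' b' : ℕ → ℕ → K) (S : Type) [CommRing S] (ι : K →+* S) (X0 X1 Y : S) :
    rhs δ d A B (fun j k => a j k + a' j k) (fun j k => b j k + b' j k) S ι X0 X1 Y =
      rhs δ d A B a b S ι X0 X1 Y + rhs δ d A B a' b' S ι X0 X1 Y := by
  unfold rhs
  rw [← Finset.sum_add_distrib]
  refine Finset.sum_congr rfl fun j _ => ?_
  simp only [map_add, add_mul, Finset.sum_add_distrib]
  ring

theorem rhs_smul (c : K) (a b : ℕ → ℕ → K) (S : Type) [CommRing S] (ι : K →+* S)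
    (X0 X1 Y : S) :
    rhs δ d A B (fun j k => c * a j k) (fun j k => c * b j k) S ι X0 X1 Y =
      ι c * rhs δ d A B a b S ι X0 X1 Y := by
  unfold rhs
  rw [Finset.mul_sum]
  refine Finset.sum_congr rfl fun j _ => ?_
  simp only [map_mul, mul_assoc, ← Finset.mul_sum]
  ring

theorem rhs_zero (S : Type) [CommRing S] (ι : K →+* S) (X0 X1 Y : S) :
    rhs δ d A B (fun _ _ => 0) (fun _ _ => 0) S ι X0 X1 Y = 0 := by
  unfold rhs
  simp

theorem Rep.add {g g' : ∀ (S : Type) [CommRing S], (K →+* S) → S → S → S → S}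
    (h : Rep δ d A B g) (h' : Rep δ d A B g') :
    Rep δ d A B (fun S _ ι X0 X1 Y => g S ι X0 X1 Y + g' S ι X0 X1 Y) := by
  obtain ⟨a, b, h1, h2⟩ := h
  obtain ⟨a', b', h1', h2'⟩ := h'
  refine ⟨fun j k => a j k + a' j k, fun j k => b j k + b' j k, fun j hj k => ?_,
    fun S _ ι X0 X1 Y => ?_⟩
  · simp only [h1 j hj k, h1' j hj k, add_zero]
  · beta_reduce
    rw [rhs_add, h2, h2']

theorem Rep.smul {g : ∀ (S : Type) [CommRing S], (K →+* S) → S → S → S → S}
    (h : Rep δ d A B g) (c : K) :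
    Rep δ d A B (fun S _ ι X0 X1 Y => ι c * g S ι X0 X1 Y) := by
  obtain ⟨a, b, h1, h2⟩ := h
  refine ⟨fun j k => c * a j k, fun j k => c * b j k, fun j hj k => ?_,
    fun S _ ι X0 X1 Y => ?_⟩
  · simp only [h1 j hj k, mul_zero]
  · beta_reduce
    rw [rhs_smul, h2]

theorem Rep.congr {g g' : ∀ (S : Type) [CommRing S], (K →+* S) → S → S → S → S}
    (h : Rep δ d A B g) (hg : ∀ (S : Type) [CommRing S] (ι : K →+* S) (X0 X1 Y : S),
      g' S ι X0 X1 Y = g S ι X0 X1 Y) : Rep δ d A B g' := by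
  obtain ⟨a, b, h1, h2⟩ := h
  exact ⟨a, b, h1, fun S _ ι X0 X1 Y => by rw [hg, h2]⟩

theorem Rep.sum {I : Type} (T : Finset I)
    (g : I → ∀ (S : Type) [CommRing S], (K →+* S) → S → S → S → S)
    (h : ∀ i ∈ T, Rep δ d A B (g i)) :
    Rep δ d A B (fun S _ ι X0 X1 Y => ∑ i ∈ T, g i S ι X0 X1 Y) := by
  classical
  induction T using Finset.induction_on with
  | empty =>
    exact ⟨fun _ _ => 0, fun _ _ => 0, fun _ _ _ => rfl, fun S _ ι X0 X1 Y => by
      beta_reduce
      rw [rhs_zero, Finset.sum_empty]⟩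
  | insert i T hi ih =>
    refine ((h i (Finset.mem_insert_self i T)).add
      (ih fun j hj => h j (Finset.mem_insert_of_mem hj))).congr fun S _ ι X0 X1 Y => ?_
    rw [Finset.sum_insert hi]

theorem Rep.shift {g : ∀ (S : Type) [CommRing S], (K →+* S) → S → S → S → S} (hδ : 2 ≤ δ)
    (h : Rep δ d A B g) :
    Rep δ (d + 2) A B (fun S _ ι X0 X1 Y => X0 ^ (4 * δ - 4) *
      (Y ^ 2 - ι A * (X0 ^ 4 + X1 ^ 4) - ι B * (X0 ^ 2 * X1 ^ 2)) * g S ι X0 X1 Y) := by
  obtain ⟨a, b, h1, h2⟩ := h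
  refine ⟨fun j k => if j = 0 then 0 else a (j - 1) k,
    fun j k => if j = 0 then 0 else b (j - 1) k, fun j hj k => ?_, fun S _ ι X0 X1 Y => ?_⟩
  · dsimp only
    split_ifs with h0
    · rfl
    · apply h1
      have : d - 2 * (j - 1) = d + 2 - 2 * j := by omega
      rwa [this]
  · beta_reduce
    rw [h2]
    unfold rhs
    have e0 : (d + 2) / 2 + 1 = (d / 2 + 1) + 1 := by omega
    rw [e0, Finset.sum_range_succ' _ (d / 2 + 1)]
    simp only [if_true, map_zero, zero_mul, Finset.sum_const_zero, add_zero, mul_zero,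
      Nat.add_eq_zero_iff, one_ne_zero, and_false, if_false, Nat.add_sub_cancel]
    rw [Finset.mul_sum]
    refine Finset.sum_congr rfl fun j hj => ?_
    have hj' : 2 * j ≤ d := by
      have := Finset.mem_range.1 hj
      omega
    have e1 : d + 2 - 2 * (j + 1) = d - 2 * j := by omega
    rw [e1]
    have e2 : 2 * δ * (d + 2) - δ * (d - 2 * j) - 4 * (j + 1) =
        (4 * δ - 4) + (2 * δ * d - δ * (d - 2 * j) - 4 * j) := by
      have h3 : δ * (d - 2 * j) + δ * (2 * j) = δ * d := by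
        rw [← mul_add]
        congr 1
        omega
      have h4 : 4 * j ≤ δ * (2 * j) := by nlinarith
      have h5 : 2 * δ * (d + 2) = 2 * δ * d + 4 * δ := by ring
      have h6 : 2 * δ * d = δ * d + δ * d := by ring
      omega
    rw [e2, pow_add, pow_succ]
    ring

theorem rep_mono (hδ : 2 ≤ δ) (p : ℕ) : ∀ (d i e : ℕ), e ≤ 1 → i + δ * (2 * p + e) ≤ δ * d →
    Rep δ d A B (fun S _ ι X0 X1 Y =>
      X0 ^ (2 * δ * d - i - 2 * (2 * p + e)) * X1 ^ i * Y ^ (2 * p + e)) := by
  induction p with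
  | zero =>
    intro d i e he hi
    rcases Nat.eq_zero_or_pos e with rfl | he'
    · refine ⟨fun j k => if j = 0 ∧ k = i then 1 else 0, fun _ _ => 0, fun _ _ _ => rfl,
        fun S _ ι X0 X1 Y => ?_⟩
      unfold rhs
      rw [Finset.sum_eq_single 0]
      · rw [Finset.sum_eq_single i]
        · simp only [map_zero, zero_mul, Finset.sum_const_zero, add_zero, mul_zero, pow_zero,
            Nat.sub_zero, and_self, if_true, map_one, one_mul, mul_one]
          rw [← mul_assoc, ← pow_add]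
          congr 2
          have : 2 * δ * d = δ * d + δ * d := by ring
          omega
        · intro k _ hk
          beta_reduce
          rw [if_neg (fun h => hk h.2), map_zero, zero_mul]
        · intro hn
          exfalso
          apply hn
          rw [Finset.mem_range]
          simp only [mul_zero, Nat.sub_zero]
          omega
      · intro j _ hj
        simp [hj]
      · intro hn
        exfalso
        apply hn
        rw [Finset.mem_range]
        omega
    · have he1 : e = 1 := by omega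
      subst he1
      refine ⟨fun _ _ => 0, fun j k => if j = 0 ∧ k = i then 1 else 0, fun j hj k => ?_,
        fun S _ ι X0 X1 Y => ?_⟩
      · dsimp only
        rw [if_neg]
        rintro ⟨rfl, -⟩
        simp only [mul_zero, Nat.sub_zero, zero_add, mul_one] at hj hi
        omega
      · unfold rhs
        simp only [mul_zero, zero_add, mul_one] at hi
        rw [Finset.sum_eq_single 0]
        · rw [Finset.sum_eq_single (M := S) (s := Finset.range (δ * (d - 2 * 0) - 2 + 1)) i]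
          · simp only [map_zero, zero_mul, Finset.sum_const_zero, mul_zero, pow_zero,
              Nat.sub_zero, and_self, if_true, map_one, one_mul, mul_one, zero_add, pow_one]
            rw [← mul_assoc, ← mul_assoc, ← pow_add]
            congr 3
            have : 2 * δ * d = δ * d + δ * d := by ring
            omega
          · intro k _ hk
            beta_reduce
            rw [if_neg (fun h => hk h.2), map_zero, zero_mul]
          · intro hn
            exfalso
            apply hn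
            rw [Finset.mem_range]
            simp only [mul_zero, Nat.sub_zero]
            omega
        · intro j _ hj
          simp [hj]
        · intro hn
          exfalso
          apply hn
          rw [Finset.mem_range]
          omega
  | succ p ih =>
    intro d i e he hi
    have h1 : δ * (2 * (p + 1) + e) = δ * (2 * p + e) + 2 * δ := by ring
    obtain ⟨d', rfl⟩ : ∃ d', d = d' + 2 := by
      refine ⟨d - 2, ?_⟩
      have h2 : δ * 2 ≤ δ * d := by
        rw [h1] at hi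
        have : 0 ≤ δ * (2 * p + e) := Nat.zero_le _
        omega
      have := Nat.le_of_mul_le_mul_left h2 (by omega)
      omega
    have h2 : δ * (d' + 2) = δ * d' + 2 * δ := by ring
    have h3 : i + δ * (2 * p + e) ≤ δ * d' := by omega
    have h4 : 2 * (2 * p + e) ≤ δ * (2 * p + e) := Nat.mul_le_mul_right _ hδ
    have h5 : 2 * δ * (d' + 2) = 2 * (δ * d') + 4 * δ := by ring
    have h6 : 2 * δ * d' = 2 * (δ * d') := by ring
    have r1 := (ih d' i e he h3).shift hδ
    have r2 := (ih (d' + 2) i e he (by omega)).smul A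
    have r3 := (ih (d' + 2) (i + 4) e he (by omega)).smul A
    have r4 := (ih (d' + 2) (i + 2) e he (by omega)).smul B
    refine (r1.add (r2.add (r3.add r4))).congr fun S _ ι X0 X1 Y => ?_
    obtain ⟨E, hE⟩ : ∃ E, E = 2 * δ * (d' + 2) - i - 2 * (2 * (p + 1) + e) := ⟨_, rfl⟩
    have g1 : 2 * δ * (d' + 2) - i - 2 * (2 * p + e) = E + 4 := by omega
    have g2 : 2 * δ * (d' + 2) - (i + 4) - 2 * (2 * p + e) = E := by omega
    have g3 : 2 * δ * (d' + 2) - (i + 2) - 2 * (2 * p + e) = E + 2 := by omega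
    have g4 : E = (4 * δ - 4) + (2 * δ * d' - i - 2 * (2 * p + e)) := by omega
    rw [← hE, g1, g2, g3]
    have g5 : X0 ^ (4 * δ - 4) *
        (Y ^ 2 - ι A * (X0 ^ 4 + X1 ^ 4) - ι B * (X0 ^ 2 * X1 ^ 2)) *
          (X0 ^ (2 * δ * d' - i - 2 * (2 * p + e)) * X1 ^ i * Y ^ (2 * p + e)) =
        X0 ^ E * (Y ^ 2 - ι A * (X0 ^ 4 + X1 ^ 4) - ι B * (X0 ^ 2 * X1 ^ 2)) *
          (X1 ^ i * Y ^ (2 * p + e)) := by
      rw [g4, pow_add]
      ring
    rw [g5, show 2 * (p + 1) + e = (2 * p + e) + 2 by ring]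
    ring

/-- polynomials with few monomials are determined by their values -/
theorem eq_zero_of_sum {f : (ℤ × ℤ) →₀ K} (hf : ∀ m ∈ f.support, 0 ≤ m.1 ∧ 0 ≤ m.2)
    (h : f.sum (fun m c => (Polynomial.C (Polynomial.C c) : Polynomial (Polynomial K)) *
      ((Polynomial.C Polynomial.X) ^ m.1.toNat * Polynomial.X ^ m.2.toNat)) = 0) : f = 0 := by
  ext m
  by_contra hm
  have hms : m ∈ f.support := Finsupp.mem_support_iff.2 hm
  have h1 := congrArg (fun q : Polynomial (Polynomial K) => (q.coeff m.2.toNat).coeff m.1.toNat) h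
  simp only [Finsupp.sum, Polynomial.finsetSum_coeff, Polynomial.coeff_zero] at h1
  rw [Finset.sum_eq_single m] at h1
  · apply hm
    rw [Finsupp.coe_zero, Pi.zero_apply]
    refine Eq.trans ?_ h1
    rw [← Polynomial.C_pow, ← mul_assoc, ← Polynomial.C_mul, Polynomial.coeff_C_mul_X_pow,
      if_pos rfl, Polynomial.coeff_C_mul_X_pow, if_pos rfl]
  · intro m' hm' hne
    rw [← Polynomial.C_pow, ← mul_assoc, ← Polynomial.C_mul, Polynomial.coeff_C_mul_X_pow]
    split_ifs with h2
    · rw [Polynomial.coeff_C_mul_X_pow, if_neg]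
      intro h3
      apply hne
      have h4 := hf m' hm'
      have h5 := hf m hms
      exact Prod.ext (by omega) (by omega)
    · simp
  · intro hn
    exact absurd hms hn

end

end Q5

variable {F : Type} [Field F]

theorem dec2 {δ d : ℕ} (hδ : 2 ≤ δ) (A B : HK F) {f : (ℤ × ℤ) →₀ HK F}
    (hf : ∀ m ∈ f.support, 0 ≤ m.1 ∧ 0 ≤ m.2 ∧ m.1 + δ * m.2 ≤ δ * d) (hne : f ≠ 0) :
    ∃ a b : ℕ → ℕ → HK F, (∀ j, δ * (d - 2 * j) < 2 → ∀ k, b j k = 0) ∧
      (∃ j, 2 * j ≤ d ∧ ((∃ k, k ≤ δ * (d - 2 * j) ∧ a j k ≠ 0) ∨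
        ∃ k, k + 2 ≤ δ * (d - 2 * j) ∧ b j k ≠ 0)) ∧
      ∀ (S : Type) [CommRing S] (ι : HK F →+* S) (X0 X1 Y : S),
        f.sum (fun m c => ι c * ((X0 ^ 2) ^ (((δ * d : ℕ) : ℤ) - m.1 - m.2).toNat *
          (X0 * X1) ^ m.1.toNat * Y ^ m.2.toNat)) =
        ∑ j ∈ Finset.range (d / 2 + 1), X0 ^ (2 * δ * d - δ * (d - 2 * j) - 4 * j) *
          ((∑ k ∈ Finset.range (δ * (d - 2 * j) + 1),
              ι (a j k) * (X0 ^ (δ * (d - 2 * j) - k) * X1 ^ k)) +
            (∑ k ∈ Finset.range (δ * (d - 2 * j) - 2 + 1),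
              ι (b j k) * (X0 ^ (δ * (d - 2 * j) - 2 - k) * X1 ^ k)) * Y) *
          (Y ^ 2 - ι A * (X0 ^ 4 + X1 ^ 4) - ι B * (X0 ^ 2 * X1 ^ 2)) ^ j := by
  have hrep : Q5.Rep δ d A B (fun S _ ι X0 X1 Y =>
      ∑ m ∈ f.support, ι (f m) * ((X0 ^ 2) ^ (((δ * d : ℕ) : ℤ) - m.1 - m.2).toNat *
          (X0 * X1) ^ m.1.toNat * Y ^ m.2.toNat)) := by
    apply Q5.Rep.sum f.support (fun m S _ ι X0 X1 Y =>
      ι (f m) * ((X0 ^ 2) ^ (((δ * d : ℕ) : ℤ) - m.1 - m.2).toNat *
          (X0 * X1) ^ m.1.toNat * Y ^ m.2.toNat))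
    intro m hm
    obtain ⟨h1, h2, h3⟩ := hf m hm
    obtain ⟨i, hi⟩ := Int.eq_ofNat_of_zero_le h1
    obtain ⟨j, hj⟩ := Int.eq_ofNat_of_zero_le h2
    have h4 : i + δ * j ≤ δ * d := by
      rw [hi, hj] at h3
      exact_mod_cast h3
    have hjp : 2 * (j / 2) + j % 2 = j := by omega
    have h5 := (Q5.rep_mono (A := A) (B := B) hδ (j / 2) d i (j % 2) (by omega)
      (by rw [hjp]; exact h4)).smul (f m)
    refine h5.congr fun S _ ι X0 X1 Y => ?_
    rw [hjp, hi, hj, Int.toNat_natCast, Int.toNat_natCast]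
    have h6 : j ≤ δ * j := Nat.le_mul_of_pos_left j (by omega)
    have h7 : (((δ * d : ℕ) : ℤ) - i - j).toNat = δ * d - i - j := by omega
    have h8 : 2 * δ * d - i - 2 * j = 2 * (δ * d - i - j) + i := by
      have : 2 * δ * d = 2 * (δ * d) := by ring
      omega
    rw [h7, h8, pow_add, pow_mul, mul_pow]
    ring
  obtain ⟨a, b, hb, hrep⟩ := hrep
  refine ⟨a, b, hb, ?_, fun S _ ι X0 X1 Y => hrep S ι X0 X1 Y⟩
  by_contra hcon
  push Not at hcon
  apply hne
  apply Q5.eq_zero_of_sum (fun m hm => ⟨(hf m hm).1, (hf m hm).2.1⟩)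
  have h1 := hrep (Polynomial (Polynomial (HK F))) (Polynomial.C.comp Polynomial.C) 1
    (Polynomial.C Polynomial.X) Polynomial.X
  have h2 : Q5.rhs δ d A B a b (Polynomial (Polynomial (HK F)))
      (Polynomial.C.comp Polynomial.C) 1 (Polynomial.C Polynomial.X) Polynomial.X = 0 := by
    unfold Q5.rhs
    apply Finset.sum_eq_zero
    intro j hj
    have hj' : 2 * j ≤ d := by
      have := Finset.mem_range.1 hj
      omega
    obtain ⟨h3, h4⟩ := hcon j hj'
    rw [Finset.sum_eq_zero, Finset.sum_eq_zero]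
    · simp
    · intro k hk
      have hbk : b j k = 0 := by
        by_cases h5 : δ * (d - 2 * j) < 2
        · exact hb j h5 k
        · apply h4
          have := Finset.mem_range.1 hk
          omega
      rw [hbk, map_zero, zero_mul]
    · intro k hk
      have hak : a j k = 0 := by
        apply h3
        have := Finset.mem_range.1 hk
        omega
      rw [hak, map_zero, zero_mul]
  rw [h2] at h1
  rw [← h1]
  unfold Finsupp.sum
  refine Finset.sum_congr rfl fun m _ => ?_
  simp only [one_pow, one_mul, RingHom.comp_apply]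

end Pool.Agent.TH603.ED
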