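import Pool.Agent.TH603.ED.Q2
import Pool.Agent.TH603.ED.Q3
import Pool.Agent.TH603.ED.Q4
import Pool.Agent.TH603.ED.Q5
import Pool.Agent.TH603.EL.Lead0

set_option autoImplicit false

/-! The leading coefficient along the tube (job ED-Q6, helper914). -/

namespace Pool.Agent.TH603.ED

open Pool.Agent.TH603.EL

variable {F : Type} [Field F]

/-- the properties of the term of index `j` -/
def LdAt (x : HR F) (m : ℕ) (j : ℕ) (τ : ℝ) (c : ℝ) : Prop :=
  Low x c ∧ x.coeff c ≠ 0 ∧ ∀ i k : ℤ, cf x c i k ≠ 0 →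
    k = j ∧ -((m : ℝ) * (1 + τ)) ≤ (i : ℝ) + j ∧ (i : ℝ) + j ≤ m * (1 - τ)

/-- the sum of terms with different powers of `Y` -/
theorem ld_sum {J : Finset ℕ} (hJ : J.Nonempty) {T : ℕ → HR F} {m : ℕ → ℕ} {c : ℕ → ℝ} {τ : ℝ}
    (hc : ∀ j ∈ J, LdAt (T j) (m j) j τ (c j)) :
    ∃ a : ℝ, (∑ j ∈ J, T j).coeff a ≠ 0 ∧ ∀ i k : ℤ, cf (∑ j ∈ J, T j) a i k ≠ 0 →
      ∃ j ∈ J, k = j ∧ -((m j : ℝ) * (1 + τ)) ≤ (i : ℝ) + j ∧ (i : ℝ) + j ≤ m j * (1 - τ) := by
  classical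
  obtain ⟨j0, hj0, hmin⟩ := Finset.exists_min_image J c hJ
  have hcf : ∀ i k, cf (∑ j ∈ J, T j) (c j0) i k = ∑ j ∈ J, cf (T j) (c j0) i k := by
    intro i k
    rw [Lead.cf_sum]
  have hone : ∀ j ∈ J, ∀ i k, cf (T j) (c j0) i k ≠ 0 →
      k = j ∧ -((m j : ℝ) * (1 + τ)) ≤ (i : ℝ) + j ∧ (i : ℝ) + j ≤ m j * (1 - τ) := by
    intro j hj i k hik
    obtain ⟨e1, _, e3⟩ := hc j hj
    rcases lt_or_eq_of_le (hmin j hj) with h | h
    · exfalso
      apply hik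
      unfold cf
      rw [e1 _ h]
      rfl
    · rw [h] at hik
      exact e3 i k hik
  refine ⟨c j0, ?_, ?_⟩
  · intro h
    obtain ⟨e1, e2, e3⟩ := hc j0 hj0
    apply e2
    ext ⟨i, k⟩
    show cf (T j0) (c j0) i k = 0
    by_contra hik
    have hk := (hone j0 hj0 i k hik).1
    have h3 : ∑ j ∈ J, cf (T j) (c j0) i k = cf (T j0) (c j0) i k := by
      refine Finset.sum_eq_single j0 ?_ ?_
      · intro j hj hjne
        by_contra h4
        have h5 := (hone j hj i k h4).1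
        rw [hk] at h5
        exact hjne (by exact_mod_cast h5.symm)
      · intro h4
        exact absurd hj0 h4
    apply hik
    rw [← h3, ← hcf]
    unfold cf
    rw [h]
    rfl
  · intro i k hik
    rw [hcf] at hik
    obtain ⟨j, hj, hj2⟩ := Finset.exists_ne_zero_of_sum_ne_zero hik
    exact ⟨j, hj, hone j hj i k hj2⟩

/-- the bracket -/
theorem ld_bracket [CharZero F] {m : ℕ} {a b : ℕ → HK F} (hb : m < 2 → ∀ k, b k = 0) {τ : ℝ}
    (h0 : 0 < τ) (h1 : τ < 1) (hne : (∃ k, k ≤ m ∧ a k ≠ 0) ∨ ∃ k, k + 2 ≤ m ∧ b k ≠ 0)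
    {s : ℝ} (hs : 4 * (m : ℝ) + 4 < s) :
    ∃ c, LdAt (fm m a τ + fm (m - 2) b τ * (ww F τ + tz F s 0 1)) m 0 τ c := by
  obtain ⟨c, c1, c2, c3⟩ := gm_lead hb h0 h1 hne
  have e : fm m a τ + fm (m - 2) b τ * (ww F τ + tz F s 0 1) =
      gm m a b τ + fm (m - 2) b τ * tz F s 0 1 := by
    unfold gm; ring
  have hlow := c3.mul (low_tz (F := F) s 0 1)
  have hc : (gm m a b τ + fm (m - 2) b τ * tz F s 0 1).coeff c = (gm m a b τ).coeff c := by
    rw [HahnSeries.coeff_add, hlow c (by linarith), add_zero]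
  rw [e]
  refine ⟨c, c2.add (hlow.mono (by linarith)), ?_, ?_⟩
  · rw [hc]; exact c1
  · intro i k hik
    have h2 : cf (gm m a b τ) c i k ≠ 0 := by
      unfold cf at hik ⊢
      rw [hc] at hik
      exact hik
    obtain ⟨g1, g2, g3⟩ := gm_bound hb c2 h2
    refine ⟨by rw [g3]; rfl, ?_, ?_⟩
    · push_cast; linarith
    · push_cast; linarith

/-- the equation of the curve along the tube -/
theorem ld_P {τ : ℝ} (h0 : 0 < τ) (h1 : τ < 1) {s : ℝ} (hs : 1 ≤ s) :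
    Low (tz F s 0 1 * (2 * ww F τ + tz F s 0 1)) (s + (1 / 4 - τ)) ∧
      (tz F s 0 1 * (2 * ww F τ + tz F s 0 1)).coeff (s + (1 / 4 - τ)) =
        AddMonoidAlgebra.single (-1, 1) (-2) := by
  obtain ⟨w1, w2⟩ := Q4.ww_lead (F := F) h0 h1
  have e : (2 : HR F) * ww F τ = ww F τ + ww F τ := by ring
  have hl : Low (2 * ww F τ + tz F s 0 1) (1 / 4 - τ) := by
    rw [e]
    exact (w1.add w1).add ((low_tz (F := F) s 0 1).mono (by linarith))
  have hc : (2 * ww F τ + tz F s 0 1).coeff (1 / 4 - τ) = AddMonoidAlgebra.single (-1, 0) (-2) := by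
    rw [e, HahnSeries.coeff_add, HahnSeries.coeff_add, w2, low_tz (F := F) s 0 1 _ (by linarith),
      add_zero, ← AddMonoidAlgebra.single_add]
    norm_num
  refine ⟨(low_tz (F := F) s 0 1).mul hl, ?_⟩
  rw [(low_tz (F := F) s 0 1).coeff_mul hl, hc, coeff_tz, AddMonoidAlgebra.single_mul_single]
  simp

/-- multiplication by the powers -/
theorem ld_mul [CharZero F] {x G H : HR F} {m : ℕ} {τ c e : ℝ} (hx : LdAt x m 0 τ c)
    (hG : Low G 0) (hG2 : G.coeff 0 = 1) (hH : Low H e)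
    (hH2 : H.coeff e = AddMonoidAlgebra.single (-1, 1) (-2)) (j : ℕ) :
    LdAt (G * x * H ^ j) m j τ (c + j * e) := by
  obtain ⟨h1, h2, h3⟩ := hx
  have h4 := hH.pow j
  have h5 := hH.coeff_pow j
  have hp : ((AddMonoidAlgebra.single ((-1 : ℤ), (1 : ℤ)) (-2 : F)) : Lau F) ^ j =
      AddMonoidAlgebra.single (-(j : ℤ), (j : ℤ)) ((-2) ^ j) := by
    rw [AddMonoidAlgebra.single_pow]
    congr 1
    ext <;> simp
  rw [hH2, hp] at h5
  have g1 : Low (G * x) c := by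
    have := hG.mul h1
    rwa [zero_add] at this
  have g2 : (G * x).coeff c = x.coeff c := by
    have := hG.coeff_mul h1
    rw [zero_add, hG2, one_mul] at this
    exact this
  have h6 : (G * x * H ^ j).coeff (c + j * e) =
      x.coeff c * AddMonoidAlgebra.single (-(j : ℤ), (j : ℤ)) ((-2) ^ j) := by
    rw [g1.coeff_mul h4, h5, g2]
  have h7 : ∀ i k : ℤ, cf (G * x * H ^ j) (c + j * e) i k = cf x c (i + j) (k - j) * (-2) ^ j := by
    intro i k
    unfold cf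
    rw [h6, AddMonoidAlgebra.coeff_mul_single_apply]
    congr 2
    ext
    · simp
    · simp
      rfl
  have hpow : ((-2 : F)) ^ j ≠ 0 := pow_ne_zero _ (by
    rw [neg_ne_zero]
    exact two_ne_zero)
  refine ⟨g1.mul h4, ?_, ?_⟩
  · intro h
    apply h2
    ext ⟨i, k⟩
    have h8 := h7 (i - j) (k + j)
    rw [sub_add_cancel, add_sub_cancel_right] at h8
    have h9 : cf (G * x * H ^ j) (c + j * e) (i - j) (k + j) = 0 := by
      unfold cf
      rw [h]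
      rfl
    rw [h9] at h8
    rcases mul_eq_zero.1 h8.symm with h10 | h10
    · exact h10
    · exact absurd h10 hpow
  · intro i k hik
    rw [h7] at hik
    obtain ⟨q1, q2, q3⟩ := h3 _ _ (left_ne_zero_of_mul hik)
    refine ⟨by push_cast at q1; linarith, ?_, ?_⟩
    · push_cast at q2 ⊢
      linarith
    · push_cast at q3 ⊢
      linarith

/-- a form without coefficients is zero -/
theorem fm_zero_of {m : ℕ} {a : ℕ → HK F} {τ : ℝ} (h : ∀ k, k ≤ m → a k = 0) : fm m a τ = 0 := by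
  unfold fm
  refine Finset.sum_eq_zero fun k hk => ?_
  rw [h k (by rw [Finset.mem_range] at hk; omega), map_zero, zero_mul]

/-- evaluation of the form attached to a polynomial -/
theorem ev_hom (X : ZMod 3 → HR F) (n : ℕ) (f : (ℤ × ℤ) →₀ HK F) :
    ev X (hom n f) = f.sum (fun m c => incl c * (X 0 ^ ((n : ℤ) - m.1 - m.2).toNat *
      X 1 ^ m.1.toNat * X 2 ^ m.2.toNat)) := by
  unfold hom Finsupp.sum
  rw [map_sum]
  refine Finset.sum_congr rfl fun m _ => ?_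
  rw [map_mul, map_mul, map_mul, map_pow, map_pow, map_pow, ev_C, ev_X, ev_X, ev_X]

theorem tub_lead [CharZero F] {δ d : ℕ} (hδ : 2 ≤ δ) {τ : ℝ} (h0 : 0 < τ) (h1 : τ < 1)
    {f : (ℤ × ℤ) →₀ HK F}
    (hf : ∀ m ∈ f.support, 0 ≤ m.1 ∧ 0 ≤ m.2 ∧ m.1 + δ * m.2 ≤ δ * d) (hne : f ≠ 0)
    {s : ℝ} (hs : 8 * δ * d + 8 < s) :
    ∃ c : ℝ, (ev (tub F τ s) (hom (δ * d) f)).coeff c ≠ 0 ∧
      ∀ i j : ℤ, cf (ev (tub F τ s) (hom (δ * d) f)) c i j ≠ 0 →
        0 ≤ j ∧ -(δ * ((d : ℝ) - 2 * j) * (1 + τ)) ≤ (i : ℝ) + j ∧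
          (i : ℝ) + j ≤ δ * ((d : ℝ) - 2 * j) * (1 - τ) := by
  classical
  have hδd : (0 : ℝ) ≤ δ * d := by positivity
  obtain ⟨A, B, hAB⟩ := exists_rel F τ
  obtain ⟨a, b, hb, hex, hid⟩ := dec2 hδ A B hf hne
  have hid' := hid (HR F) incl (x0 F τ) (x1 F τ) (ww F τ + tz F s 0 1)
  set P : HR F := tz F s 0 1 * (2 * ww F τ + tz F s 0 1) with hP
  have hPeq : (ww F τ + tz F s 0 1) ^ 2 - incl A * (x0 F τ ^ 4 + x1 F τ ^ 4) -
      incl B * (x0 F τ ^ 2 * x1 F τ ^ 2) = P := by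
    rw [hP]
    linear_combination hAB
  set T : ℕ → HR F := fun j => x0 F τ ^ (2 * δ * d - δ * (d - 2 * j) - 4 * j) *
    (fm (δ * (d - 2 * j)) (a j) τ + fm (δ * (d - 2 * j) - 2) (b j) τ * (ww F τ + tz F s 0 1)) *
      P ^ j with hT
  have hev : ev (tub F τ s) (hom (δ * d) f) = ∑ j ∈ Finset.range (d / 2 + 1), T j := by
    rw [ev_hom]
    have t0 : tub F τ s 0 = x0 F τ ^ 2 := by simp [tub]
    have t1 : tub F τ s 1 = x0 F τ * x1 F τ := by
      unfold tub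
      rw [if_neg (by decide), if_pos rfl]
    have t2 : tub F τ s 2 = ww F τ + tz F s 0 1 := by
      unfold tub
      rw [if_neg (by decide), if_neg (by decide)]
    rw [t0, t1, t2, hid', hPeq]
    rfl
  obtain ⟨J, hJ⟩ : ∃ J : Finset ℕ, J = (Finset.range (d / 2 + 1)).filter (fun j =>
      (∃ k, k ≤ δ * (d - 2 * j) ∧ a j k ≠ 0) ∨ ∃ k, k + 2 ≤ δ * (d - 2 * j) ∧ b j k ≠ 0) :=
    ⟨_, rfl⟩
  have hJne : J.Nonempty := by
    obtain ⟨j, hj1, hj2⟩ := hex
    refine ⟨j, ?_⟩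
    rw [hJ, Finset.mem_filter, Finset.mem_range]
    exact ⟨by omega, hj2⟩
  have hsum : ∑ j ∈ Finset.range (d / 2 + 1), T j = ∑ j ∈ J, T j := by
    rw [hJ, Finset.sum_filter]
    refine Finset.sum_congr rfl fun j _ => ?_
    split_ifs with h
    · rfl
    · push Not at h
      obtain ⟨q1, q2⟩ := h
      have z1 : fm (δ * (d - 2 * j)) (a j) τ = 0 := fm_zero_of q1
      have z2 : fm (δ * (d - 2 * j) - 2) (b j) τ = 0 := by
        refine fm_zero_of fun k hk => ?_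
        rcases lt_or_ge (δ * (d - 2 * j)) 2 with h3 | h3
        · exact hb j h3 k
        · exact q2 k (by omega)
      simp only [hT]
      rw [z1, z2, zero_mul, add_zero, mul_zero, zero_mul]
  obtain ⟨x1', x2'⟩ := Q4.x0_lead (F := F) h0 h1
  obtain ⟨p1, p2⟩ := ld_P (F := F) h0 h1 (s := s) (by nlinarith)
  have hlead : ∀ j ∈ J, ∃ c, LdAt (T j) (δ * (d - 2 * j)) j τ c := by
    intro j hj
    rw [hJ, Finset.mem_filter] at hj
    have hm : ((δ * (d - 2 * j) : ℕ) : ℝ) ≤ δ * d := by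
      have : δ * (d - 2 * j) ≤ δ * d := Nat.mul_le_mul_left _ (Nat.sub_le _ _)
      exact_mod_cast this
    obtain ⟨c, hc⟩ := ld_bracket (hb j) h0 h1 hj.2 (s := s) (by nlinarith)
    have hG : Low (x0 F τ ^ (2 * δ * d - δ * (d - 2 * j) - 4 * j)) 0 := x1'.pow_zero' _
    have hG2 : (x0 F τ ^ (2 * δ * d - δ * (d - 2 * j) - 4 * j)).coeff 0 = 1 := by
      have := x1'.coeff_pow (2 * δ * d - δ * (d - 2 * j) - 4 * j)
      rw [mul_zero, x2'] at this
      rw [this]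
      have h1 : (AddMonoidAlgebra.single ((0 : ℤ), (0 : ℤ)) (1 : F) : Lau F) = 1 := rfl
      rw [h1, one_pow]
    exact ⟨_, ld_mul hc hG hG2 p1 p2 j⟩
  choose! c hc using hlead
  obtain ⟨v, v1, v2⟩ := ld_sum hJne hc
  rw [hev, hsum]
  refine ⟨v, v1, fun i k hik => ?_⟩
  obtain ⟨j, hj, hk, e1, e2⟩ := v2 i k hik
  rw [hJ, Finset.mem_filter, Finset.mem_range] at hj
  have hjd : 2 * j ≤ d := by omega
  have hkj : (k : ℝ) = j := by rw [hk]; push_cast; rfl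
  have hcast : ((δ * (d - 2 * j) : ℕ) : ℝ) = δ * ((d : ℝ) - 2 * k) := by
    rw [hkj]
    push_cast [Nat.cast_sub hjd]
    ring
  rw [hcast, ← hkj] at e1 e2
  refine ⟨by rw [hk]; exact Int.natCast_nonneg j, by linarith, by linarith⟩

end Pool.Agent.TH603.ED
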