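import Pool.Agent.TH603.ED.Defs

/-! The coordinates of the tube do not vanish at the points of the torus (job 4014, helper324). -/

set_option autoImplicit false

namespace Pool.Agent.TH603.ED

open Pool.Agent.TH603.EL

variable {F : Type} [Field F]

namespace Q7

/-- the coefficient of the series at an exponent attained only once -/
theorem ser_coeff (k : ℕ) (c : ℤ → F) (τ : ℝ) (i0 : ℤ)
    (h : ∀ i : ℤ, c i ≠ 0 → exk k τ i = exk k τ i0 → i = i0) :
    (ser k c τ).coeff (exk k τ i0) = AddMonoidAlgebra.single (i0, 0) (c i0) := by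
  classical
  ext m
  obtain ⟨i, j⟩ := m
  have h1 := cf_ser (F := F) k c τ (exk k τ i0) i j
  unfold cf at h1
  rw [h1]
  by_cases hm : ((i0, (0 : ℤ)) : ℤ × ℤ) = (i, j)
  · have h2 := Prod.ext_iff.1 hm
    simp only at h2
    obtain ⟨h2, h3⟩ := h2
    subst h2 h3
    rw [if_pos ⟨rfl, rfl⟩]
    simp
  · have h4 : (AddMonoidAlgebra.single ((i0, 0) : ℤ × ℤ) (c i0) : Lau F).coeff (i, j) = 0 := by
      simp [hm]
    rw [h4]
    split_ifs with h5
    · by_contra hc
      apply hm
      rw [h5.1, h i hc h5.2]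
    · rfl

theorem tz_coeff (s a : ℝ) (i j : ℤ) (h : a ≠ s) : (tz F s i j).coeff a = 0 := by
  unfold tz
  rw [HahnSeries.coeff_single_of_ne h]

theorem ne_of_coeff {x y : F} (hx : x ≠ 0) (hy : y ≠ 0) {u : HR F} {a : ℝ} {i j : ℤ} {c : F}
    (hc : c ≠ 0) (h : u.coeff a = AddMonoidAlgebra.single (i, j) c) : evp hx hy u ≠ 0 := by
  intro h0
  have h1 := evp_coeff hx hy u a
  rw [h0, h, HahnSeries.coeff_zero] at h1
  have h2 := Pool.Agent.TH176.Nag.evL_mon x y hx hy (i, j)
  have h3 : Pool.Agent.TH176.Nag.evL x y hx hy (AddMonoidAlgebra.single (i, j) 1) =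
      x ^ i * y ^ j := h2
  have h4 : (AddMonoidAlgebra.single ((i, j) : ℤ × ℤ) c : Lau F) =
      c • AddMonoidAlgebra.single (i, j) 1 := by
    rw [AddMonoidAlgebra.smul_single, smul_eq_mul, mul_one]
  rw [h4, map_smul, h3, smul_eq_mul] at h1
  exact (mul_ne_zero hc (mul_ne_zero (zpow_ne_zero _ hx) (zpow_ne_zero _ hy))) h1.symm

theorem x0_ne {x y : F} (hx : x ≠ 0) (hy : y ≠ 0) {τ : ℝ} (h0 : 0 < τ) (h1 : τ < 1) :
    evp hx hy (x0 F τ) ≠ 0 := by
  have hc : (x0 F τ).coeff (exk 1 τ 0) = AddMonoidAlgebra.single (0, 0) 1 := by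
    have h := ser_coeff (F := F) 1 (fun i => if i % 2 = 0 then 1 else 0) τ 0 (fun i hi he => by
      have hi2 : i % 2 = 0 := by
        by_contra hne
        exact hi (if_neg hne)
      unfold exk at he
      push_cast at he
      have h4 : (i : ℝ) * ((i : ℝ) + 2 * τ) = 0 := by nlinarith
      rcases mul_eq_zero.1 h4 with h5 | h5
      · exact_mod_cast h5
      · have h6 : (-2 : ℝ) < i := by linarith
        have h7 : (i : ℝ) < 0 := by linarith
        have h6' : -2 < i := by exact_mod_cast h6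
        have h7' : i < 0 := by exact_mod_cast h7
        omega)
    refine h.trans ?_
    norm_num
  exact ne_of_coeff hx hy one_ne_zero hc

theorem x1_ne {x y : F} (hx : x ≠ 0) (hy : y ≠ 0) {τ : ℝ} (h0 : 0 < τ) (h1 : τ < 1) :
    evp hx hy (x1 F τ) ≠ 0 := by
  have hc : (x1 F τ).coeff (exk 1 τ (-1)) = AddMonoidAlgebra.single (-1, 0) 1 := by
    have h := ser_coeff (F := F) 1 (fun i => if i % 2 = 1 then 1 else 0) τ (-1) (fun i hi he => by
      have hi2 : i % 2 = 1 := by
        by_contra hne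
        exact hi (if_neg hne)
      unfold exk at he
      push_cast at he
      have h4 : ((i : ℝ) + 1) * ((i : ℝ) - 1 + 2 * τ) = 0 := by nlinarith
      rcases mul_eq_zero.1 h4 with h5 | h5
      · have h6 : (i : ℝ) = -1 := by linarith
        exact_mod_cast h6
      · have h6 : (-1 : ℝ) < i := by linarith
        have h7 : (i : ℝ) < 1 := by linarith
        have h6' : -1 < i := by exact_mod_cast h6
        have h7' : i < 1 := by exact_mod_cast h7
        omega)
    refine h.trans ?_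
    norm_num
  exact ne_of_coeff hx hy one_ne_zero hc

theorem ww_ne {x y : F} (hx : x ≠ 0) (hy : y ≠ 0) {τ s : ℝ} (h0 : 0 < τ) (h1 : τ < 1)
    (hs : 1 ≤ s) : evp hx hy (ww F τ + tz F s 0 1) ≠ 0 := by
  have hc : (ww F τ).coeff (exk 3 τ (-1)) = AddMonoidAlgebra.single (-1, 0) (-1) := by
    have h := ser_coeff (F := F) 3 (fun i => if i % 4 = 1 then 1 else if i % 4 = 3 then -1 else 0)
      τ (-1) (fun i hi he => by
      have hi2 : i % 4 = 1 ∨ i % 4 = 3 := by
        by_contra hne
        push Not at hne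
        apply hi
        rw [if_neg hne.1, if_neg hne.2]
      unfold exk at he
      push_cast at he
      have h4 : ((i : ℝ) + 1) * ((i : ℝ) - 1 + 4 * τ) = 0 := by nlinarith
      rcases mul_eq_zero.1 h4 with h5 | h5
      · have h6 : (i : ℝ) = -1 := by linarith
        exact_mod_cast h6
      · have h6 : (-3 : ℝ) < i := by linarith
        have h7 : (i : ℝ) < 1 := by linarith
        have h6' : -3 < i := by exact_mod_cast h6
        have h7' : i < 1 := by exact_mod_cast h7
        omega)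
    refine h.trans ?_
    norm_num
  have hex : exk 3 τ (-1) ≠ s := by
    unfold exk
    push_cast
    intro h4
    linarith
  refine ne_of_coeff hx hy (a := exk 3 τ (-1)) (i := -1) (j := 0) (c := -1)
    (neg_ne_zero.2 one_ne_zero) ?_
  rw [HahnSeries.coeff_add, hc, tz_coeff s _ 0 1 hex, add_zero]

end Q7

theorem evp_tub {x y : F} (hx : x ≠ 0) (hy : y ≠ 0) {τ s : ℝ} (h0 : 0 < τ) (h1 : τ < 1)
    (hs : 1 ≤ s) (l : ZMod 3) : evp hx hy (tub F τ s l) ≠ 0 := by
  unfold tub
  split_ifs
  · rw [map_pow]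
    exact pow_ne_zero _ (Q7.x0_ne hx hy h0 h1)
  · rw [map_mul]
    exact mul_ne_zero (Q7.x0_ne hx hy h0 h1) (Q7.x1_ne hx hy h0 h1)
  · exact Q7.ww_ne hx hy h0 h1 hs

end Pool.Agent.TH603.ED
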