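import Pool.Agent.TH603.ED.Q6
import Pool.Agent.TH603.ED.Q7
import Pool.Agent.TH889.ED.Core

/-! The key lemma for the surfaces of degree `δ` (job ED-Q8, helper889). -/

namespace Pool.Agent.TH603.ED

open Pool.Agent.TH603.EL

open Pool.Agent.TH176.Nag in
theorem Emp_key2 {ι : Type} {w : ι → ℕ} {δ d : ℕ} (hδ : 2 ≤ δ) {τ : ℝ} (h0 : 0 < τ) (h1 : τ < 1)
    (h : Emp w (Reg (-(δ * (d : ℝ) * (1 + τ))) (δ * (d : ℝ) * (1 - τ))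
      (2 * δ * (1 + τ)) (2 * δ * (1 - τ)))) :
    Emp w {m : ℤ × ℤ | 0 ≤ m.1 ∧ 0 ≤ m.2 ∧ m.1 + δ * m.2 ≤ δ * (d : ℤ)} :=
  Pool.Agent.TH889.ED.key2
    (fun F _ _ {_ _} a {_} b c {_} e f {_} g => tub_lead (F := F) a b c e f g)
    (fun F _ {_ _} a b {_ _} c e f g => evp_tub (F := F) a b c e f g) hδ h0 h1 h

end Pool.Agent.TH603.ED
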