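import Pool.Agent.TH181.Nag.Tri

/-!
# Piece Q9, without the key: the shapes of the triangles
-/

set_option autoImplicit false

namespace Pool.Agent.TH603.ED

open Pool.Agent.TH176.Nag Pool.Agent.TH181.Nag

namespace Q9

variable {ι : Type} [Fintype ι]

/-- the shape `(μ0, 4 δ - μ0)` with `μ0 = 2 √(δ n) - 4 δ` -/
theorem ps0 {δ : ℕ} (hδ : 2 ≤ δ) (hn : 4 * δ ≤ Fintype.card ι) :
    PS (√(Fintype.card ι)) ι (2 * √(δ * Fintype.card ι) - 4 * δ)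
      (8 * δ - 2 * √(δ * Fintype.card ι)) := by
  set n : ℝ := (Fintype.card ι : ℝ) with hn'
  have hδ' : (2 : ℝ) ≤ δ := by exact_mod_cast hδ
  have hnδ : 4 * (δ : ℝ) ≤ n := by rw [hn']; exact_mod_cast hn
  have hs : √((δ : ℝ) * n) ^ 2 = δ * n := Real.sq_sqrt (by positivity)
  have hs0 : 0 ≤ √((δ : ℝ) * n) := Real.sqrt_nonneg _
  have h1 : 2 * (δ : ℝ) ≤ √(δ * n) := by
    apply Real.le_sqrt_of_sq_le
    nlinarith
  have h2 : 2 * √((δ : ℝ) * n) ≤ n := by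
    have : √((δ : ℝ) * n) ≤ n / 2 := by
      apply Real.sqrt_le_iff.2
      constructor
      · linarith
      · nlinarith
    linarith
  refine PS.stepA 1 (4 * δ) isCoprime_one_left (by norm_num) ?_ ?_ ?_ ?_
  · push_cast; linarith
  · push_cast; linarith
  · linarith
  · have e1 : ((1 : ℤ) : ℝ) * (((1 : ℤ) : ℝ) * (2 * √((δ : ℝ) * n) - 4 * δ) + ((4 * (δ : ℤ) : ℤ) : ℝ)) =
        2 * √((δ : ℝ) * n) := by push_cast; ring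
    have e2 : (((4 * (δ : ℤ) : ℤ) : ℝ) - ((1 : ℤ) : ℝ) * (8 * δ - 2 * √((δ : ℝ) * n))) *
        (((1 : ℤ) : ℝ) * (2 * √((δ : ℝ) * n) - 4 * δ) + ((4 * (δ : ℤ) : ℤ) : ℝ)) /
        ((2 * √((δ : ℝ) * n) - 4 * δ) + (8 * δ - 2 * √((δ : ℝ) * n))) =
        n - 2 * √((δ : ℝ) * n) := by
      push_cast
      have : ((2 * √((δ : ℝ) * n) - 4 * δ) + (8 * δ - 2 * √((δ : ℝ) * n))) = 4 * δ := by ring
      rw [this, div_eq_iff (by positivity)]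
      nlinarith
    rw [e1, e2]
    refine PS.final (by positivity) (by linarith) ?_
    rw [← hn']
    ring

/-- the shape `(2 δ (1 + τ), 2 δ (1 - τ))` for some `0 < τ < 1` -/
theorem ps_shape {δ : ℕ} (hδ : 2 ≤ δ) (hn : 4 * δ ≤ Fintype.card ι) :
    ∃ τ : ℝ, 0 < τ ∧ τ < 1 ∧
      PS (√(Fintype.card ι)) ι (2 * δ * (1 + τ)) (2 * δ * (1 - τ)) := by
  have h0 := ps0 hδ hn
  set μ : ℝ := 2 * √(δ * Fintype.card ι) - 4 * δ with hμ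
  have hδ' : (2 : ℝ) ≤ δ := by exact_mod_cast hδ
  have hδ0 : (0 : ℝ) < 2 * δ := by linarith
  set k : ℤ := ⌊2 * δ - μ⌋ + 1 with hk
  have k1 : 2 * (δ : ℝ) - μ < k := by
    rw [hk]; push_cast; exact Int.lt_floor_add_one _
  have k2 : (k : ℝ) ≤ 2 * (δ : ℝ) - μ + 1 := by
    rw [hk]; push_cast
    have := Int.floor_le (2 * (δ : ℝ) - μ)
    linarith
  refine ⟨(μ + k) / (2 * δ) - 1, ?_, ?_, ?_⟩
  · rw [sub_pos, lt_div_iff₀ hδ0]; linarith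
  · rw [sub_lt_iff_lt_add, div_lt_iff₀ hδ0]; linarith
  · refine PS.shear (-k) ?_
    have e1 : 2 * (δ : ℝ) * (1 + ((μ + k) / (2 * δ) - 1)) + ((-k : ℤ) : ℝ) = μ := by
      push_cast
      field_simp
      ring
    have e2 : 2 * (δ : ℝ) * (1 - ((μ + k) / (2 * δ) - 1)) - ((-k : ℤ) : ℝ) =
        8 * δ - 2 * √(δ * Fintype.card ι) := by
      push_cast
      field_simp
      rw [hμ]
      ring
    rw [e1, e2]
    exact h0

/-- `Emp_surf` from `Emp_key2` (for the given `ι`, `w`, `δ`, `d`) -/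
theorem Emp_surf_of {δ : ℕ} (hδ : 2 ≤ δ) (hn : 4 * δ ≤ Fintype.card ι)
    {w : ι → ℕ} {d : ℕ}
    (key : ∀ τ : ℝ, 0 < τ → τ < 1 →
      Emp w (Reg (-(δ * (d : ℝ) * (1 + τ))) (δ * (d : ℝ) * (1 - τ))
        (2 * δ * (1 + τ)) (2 * δ * (1 - τ))) →
      Emp w {m : ℤ × ℤ | 0 ≤ m.1 ∧ 0 ≤ m.2 ∧ m.1 + δ * m.2 ≤ δ * (d : ℤ)})
    (h : √(Fintype.card ι) * (√δ * d) < ∑ i, (w i : ℝ)) :
    Emp w {m : ℤ × ℤ | 0 ≤ m.1 ∧ 0 ≤ m.2 ∧ m.1 + δ * m.2 ≤ δ * (d : ℤ)} := by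
  obtain ⟨τ, t0, t1, hPS⟩ := ps_shape hδ hn
  apply key τ t0 t1
  have hδ' : (2 : ℝ) ≤ δ := by exact_mod_cast hδ
  have hnδ : 4 * (δ : ℝ) ≤ (Fintype.card ι : ℝ) := by exact_mod_cast hn
  have hC : 0 < √(Fintype.card ι : ℝ) := Real.sqrt_pos.2 (by linarith)
  have h1 : √(δ : ℝ) * d < (∑ i, (w i : ℝ)) / √(Fintype.card ι : ℝ) := by
    rw [lt_div_iff₀ hC]; linarith
  obtain ⟨E, h2, h3⟩ := exists_between h1
  rw [lt_div_iff₀ hC] at h3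
  have hE : 0 < E := lt_of_le_of_lt (by positivity) h2
  have h4 := hPS w E hE (by linarith) (-(δ * (d : ℝ) * (1 + τ)))
  refine h4.mono ?_
  rintro m ⟨m1, m2, m3⟩
  refine ⟨m1, m2, m3.trans ?_⟩
  have e1 : 2 * (δ : ℝ) * (1 + τ) + 2 * δ * (1 - τ) = 2 ^ 2 * δ := by ring
  have e2 : √((2 : ℝ) ^ 2 * δ) = 2 * √(δ : ℝ) := by
    rw [Real.sqrt_mul (by norm_num), Real.sqrt_sq (by norm_num)]
  rw [e1, e2]
  have hsδ : √(δ : ℝ) * √(δ : ℝ) = δ := Real.mul_self_sqrt (by linarith)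
  have h5 : 0 ≤ √(δ : ℝ) := Real.sqrt_nonneg _
  have h6 : (δ : ℝ) * d * 2 ≤ E * (2 * √(δ : ℝ)) := by
    calc (δ : ℝ) * d * 2 = (√(δ : ℝ) * d) * (2 * √(δ : ℝ)) := by
          rw [show (√(δ : ℝ) * d) * (2 * √(δ : ℝ)) = (√(δ : ℝ) * √(δ : ℝ)) * d * 2 by ring, hsδ]
      _ ≤ _ := by gcongr
  linarith

end Q9

end Pool.Agent.TH603.ED
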