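import Pool.Agent.TH603.ED.Q8
import Pool.Agent.TH603.ED.Q9a

/-! The theorem for all surfaces (job ED-Q9, helper89). -/

namespace Pool.Agent.TH603.ED

open Pool.Agent.TH603.EL

open Pool.Agent.TH176.Nag in
theorem Emp_surf {ι : Type} [Fintype ι] {δ : ℕ} (hδ : 2 ≤ δ) (hn : 4 * δ ≤ Fintype.card ι)
    {w : ι → ℕ} {d : ℕ} (h : √(Fintype.card ι) * (√δ * d) < ∑ i, (w i : ℝ)) :
    Emp w {m : ℤ × ℤ | 0 ≤ m.1 ∧ 0 ≤ m.2 ∧ m.1 + δ * m.2 ≤ δ * (d : ℤ)} :=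
  Q9.Emp_surf_of hδ hn (fun _ t0 t1 hE => Emp_key2 hδ t0 t1 hE) h

end Pool.Agent.TH603.ED
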